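import Pool.Agent.W380.Fol.Energy

/-!
# The right regular representation on finitely supported functions
-/

set_option autoImplicit false

namespace Pool.Agent.W380.Fol

/-- finitely supported functions with the `ℓ²` norm -/
def L2 (A : Type*) := A →₀ ℝ

section
variable {A : Type*}

noncomputable instance : AddCommGroup (L2 A) := inferInstanceAs (AddCommGroup (A →₀ ℝ))
noncomputable instance : Module ℝ (L2 A) := inferInstanceAs (Module ℝ (A →₀ ℝ))

/-- the identity map -/
def toF (f : L2 A) : A →₀ ℝ := f

/-- the identity map -/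
def ofF (f : A →₀ ℝ) : L2 A := f

/-- the inner product -/
noncomputable def ip (f g : L2 A) : ℝ := (toF f).sum fun x a => a * toF g x

theorem ip_eq (f g : L2 A) (s : Finset A) (hs : (toF f).support ⊆ s) :
    ip f g = ∑ x ∈ s, toF f x * toF g x := by
  unfold ip
  rw [Finsupp.sum_of_support_subset _ hs]
  intro x _
  rw [zero_mul]

theorem ip_comm (f g : L2 A) : ip f g = ip g f := by
  classical
  rw [ip_eq f g ((toF f).support ∪ (toF g).support) Finset.subset_union_left,
    ip_eq g f ((toF f).support ∪ (toF g).support) Finset.subset_union_right]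
  exact Finset.sum_congr rfl fun x _ => mul_comm _ _

noncomputable instance core : InnerProductSpace.Core ℝ (L2 A) where
  inner f g := ip f g
  conj_inner_symm f g := by
    simp only [conj_trivial]
    exact ip_comm g f
  re_inner_nonneg f := by
    simp only [RCLike.re_to_real]
    rw [ip_eq f f _ subset_rfl]
    exact Finset.sum_nonneg fun x _ => mul_self_nonneg _
  add_left f g h := by
    unfold ip
    exact Finsupp.sum_add_index' (fun _ => zero_mul _) (fun _ _ _ => add_mul _ _ _)
  smul_left f g r := by
    unfold ip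
    simp only [conj_trivial]
    have h := Finsupp.sum_smul_index (g := toF f) (b := r) (h := fun x a => a * toF g x)
      (fun _ => zero_mul _)
    refine h.trans ?_
    rw [Finsupp.sum, Finsupp.sum, Finset.mul_sum]
    exact Finset.sum_congr rfl fun x _ => mul_assoc _ _ _
  definite f hf := by
    rw [ip_eq f f _ subset_rfl] at hf
    rw [Finset.sum_eq_zero_iff_of_nonneg (fun x _ => mul_self_nonneg _)] at hf
    refine Finsupp.ext fun x => ?_
    by_contra hx
    exact hx (mul_self_eq_zero.1 (hf x (Finsupp.mem_support_iff.2 hx)))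

noncomputable instance : NormedAddCommGroup (L2 A) := core.toNormedAddCommGroup
noncomputable instance : InnerProductSpace ℝ (L2 A) := InnerProductSpace.ofCore core.toCore

theorem norm_sq_eq (f : L2 A) : ‖f‖ ^ 2 = ip f f := by
  rw [← real_inner_self_eq_norm_sq]
  rfl

theorem inner_eq (f g : L2 A) : inner ℝ f g = ip f g := rfl

end

section
variable {A : Type*} [Group A]

/-- the right regular representation -/
noncomputable def reg : A →* Module.End ℝ (L2 A) where
  toFun y := (Finsupp.lmapDomain ℝ ℝ fun x => x * y⁻¹ : (A →₀ ℝ) →ₗ[ℝ] (A →₀ ℝ))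
  map_one' := by
    refine LinearMap.ext fun f => ?_
    simp only [inv_one, mul_one]
    exact Finsupp.mapDomain_id
  map_mul' y z := by
    refine LinearMap.ext fun f => ?_
    change Finsupp.mapDomain _ (toF f) = Finsupp.mapDomain _ (Finsupp.mapDomain _ (toF f))
    rw [← Finsupp.mapDomain_comp]
    congr 1
    funext x
    simp [mul_assoc]

theorem reg_apply (y : A) (f : L2 A) (x : A) : toF (reg y f) x = toF f (x * y) := by
  have h : x = (fun x => x * y⁻¹) (x * y) := by simp
  conv_lhs => rw [h]
  exact Finsupp.mapDomain_apply (mul_left_injective _) _ _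

theorem reg_norm (y : A) (f : L2 A) : ‖reg y f‖ = ‖f‖ := by
  have h : ‖reg y f‖ ^ 2 = ‖f‖ ^ 2 := by
    rw [norm_sq_eq, norm_sq_eq]
    unfold ip
    have h1 := Finsupp.sum_mapDomain_index_inj (f := fun x : A => x * y⁻¹) (s := toF f)
      (h := fun x a => a * toF (reg y f) x) (mul_left_injective _)
    refine h1.trans ?_
    refine Finset.sum_congr rfl fun x _ => ?_
    simp only []
    rw [reg_apply, inv_mul_cancel_right]
  exact (sq_eq_sq₀ (norm_nonneg _) (norm_nonneg _)).1 h

open Classical in
omit [Group A] in
/-- the indicator function of `F` -/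
noncomputable def ind (F : Finset A) : L2 A :=
  ofF (Finsupp.onFinset F (fun x => if x ∈ F then (1 : ℝ) else 0) fun x hx => by
    by_contra h
    exact hx (if_neg h))

open Classical in
omit [Group A] in
theorem ind_apply (F : Finset A) (x : A) : toF (ind F) x = if x ∈ F then 1 else 0 := rfl

omit [Group A] in
theorem ip_ind (F : Finset A) (g : L2 A) : ip (ind F) g = ∑ x ∈ F, toF g x := by
  have hs : (toF (ind F)).support ⊆ F := by
    intro x hx
    by_contra h
    exact (Finsupp.mem_support_iff.1 hx) (by rw [ind_apply, if_neg h])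
  rw [ip_eq (ind F) g F hs]
  refine Finset.sum_congr rfl fun x hx => ?_
  rw [ind_apply, if_pos hx, one_mul]

omit [Group A] in
theorem ind_norm_sq (F : Finset A) : ‖ind F‖ ^ 2 = F.card := by
  rw [norm_sq_eq, ip_ind, Finset.sum_congr rfl fun x hx => by rw [ind_apply, if_pos hx]]
  simp

open Classical in
theorem reg_ind (F : Finset A) (y : A) :
    ‖reg y (ind F) - ind F‖ ^ 2 = 2 * ((F.filter fun x => x * y ∉ F).card : ℝ) := by
  rw [norm_sub_sq_real, reg_norm, ind_norm_sq, inner_eq, ip_comm, ip_ind]
  have h1 : ∀ x ∈ F, toF (reg y (ind F)) x = if x * y ∈ F then 1 else 0 := fun x _ => by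
    rw [reg_apply, ind_apply]
  rw [Finset.sum_congr rfl h1, ← Finset.sum_filter, Finset.sum_const, nsmul_eq_mul, mul_one]
  have h2 := Finset.card_filter_add_card_filter_not (s := F) (fun x => x * y ∈ F)
  have h3 : ((F.filter fun x => x * y ∈ F).card : ℝ) + (F.filter fun x => x * y ∉ F).card = F.card := by
    exact_mod_cast h2
  linarith

/-- the normalised indicator function -/
noncomputable def nind (F : Finset A) : L2 A := (Real.sqrt F.card)⁻¹ • ind F

theorem nind_norm (F : Finset A) (hF : F.Nonempty) : ‖nind F‖ = 1 := by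
  have h : (0 : ℝ) < F.card := by exact_mod_cast hF.card_pos
  have h1 : ‖nind F‖ ^ 2 = 1 := by
    rw [nind, norm_smul, mul_pow, ind_norm_sq, Real.norm_eq_abs, sq_abs, inv_pow,
      Real.sq_sqrt h.le, inv_mul_cancel₀ h.ne']
  have h2 : (0 : ℝ) ≤ ‖nind F‖ := norm_nonneg _
  nlinarith

open Classical in
theorem reg_nind (F : Finset A) (hF : F.Nonempty) (y : A) :
    ‖reg y (nind F) - nind F‖ ^ 2 = 2 * ((F.filter fun x => x * y ∉ F).card : ℝ) / F.card := by
  have h : (0 : ℝ) < F.card := by exact_mod_cast hF.card_pos
  rw [nind, map_smul, ← smul_sub, norm_smul, mul_pow, reg_ind, Real.norm_eq_abs, sq_abs, inv_pow,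
    Real.sq_sqrt h.le]
  field_simp

end

end Pool.Agent.W380.Fol
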