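import Pool.Agent.W380.Fol.Ent
import Pool.Agent.W380.Fol.Reg

/-!
# Almost invariant sets under many commuting patterns are large
-/

set_option autoImplicit false

namespace Pool.Agent.W380.Fol

open Finset

variable {A H I : Type*} [Group A] [Group H] [DecidableEq I]

/-- the pattern `σ` restricted to `p` -/
def pat (σ : I → H) (p : Finset I) : I → H := fun u => if u ∈ p then σ u else 1

theorem prod_single (Φ : (I → H) →* A) (σ : I → H) (p : List I) (hp : p.Nodup) :
    (p.map fun u => Φ (Pi.mulSingle u (σ u))).prod = Φ (pat σ p.toFinset) := by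
  induction p with
  | nil =>
    simp only [List.map_nil, List.prod_nil]
    rw [show pat σ ([] : List I).toFinset = 1 from funext fun u => by simp [pat], map_one]
  | cons u p ih =>
    rw [List.map_cons, List.prod_cons, ih (List.nodup_cons.1 hp).2, ← map_mul]
    congr 1
    have hu : u ∉ p := (List.nodup_cons.1 hp).1
    funext v
    rw [Pi.mul_apply]
    by_cases hv : v = u
    · subst hv
      simp [pat, hu]
    · rw [Pi.mulSingle_eq_of_ne hv, one_mul]
      simp [pat, hv]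

/-- differing in the coordinate `u` only -/
def relOne (Φ : (I → H) →* A) (u : I) (z z' : A) : Prop := ∃ h : H, z' = z * Φ (Pi.mulSingle u h)

/-- differing in the coordinates of `U` only -/
def relSet (Φ : (I → H) →* A) (U : Finset I) (z z' : A) : Prop :=
  ∃ φ : I → H, (∀ i, i ∉ U → φ i = 1) ∧ z' = z * Φ φ

theorem relOne_equiv (Φ : (I → H) →* A) (u : I) : Equivalence (relOne Φ u) where
  refl z := ⟨1, by rw [Pi.mulSingle_one, map_one, mul_one]⟩
  symm := by
    rintro z z' ⟨h, rfl⟩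
    refine ⟨h⁻¹, ?_⟩
    rw [Pi.mulSingle_inv, map_inv, mul_inv_cancel_right]
  trans := by
    rintro z z' z'' ⟨h, rfl⟩ ⟨h', rfl⟩
    refine ⟨h * h', ?_⟩
    rw [Pi.mulSingle_mul, map_mul, mul_assoc]

omit [DecidableEq I] in
theorem relSet_equiv (Φ : (I → H) →* A) (U : Finset I) : Equivalence (relSet Φ U) where
  refl z := ⟨1, fun _ _ => rfl, by rw [map_one, mul_one]⟩
  symm := by
    rintro z z' ⟨φ, hφ, rfl⟩
    refine ⟨φ⁻¹, fun i hi => by rw [Pi.inv_apply, hφ i hi, inv_one], ?_⟩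
    rw [map_inv, mul_inv_cancel_right]
  trans := by
    rintro z z' z'' ⟨φ, hφ, rfl⟩ ⟨ψ, hψ, rfl⟩
    refine ⟨φ * ψ, fun i hi => by rw [Pi.mul_apply, hφ i hi, hψ i hi, one_mul], ?_⟩
    rw [map_mul, mul_assoc]

/-- the sum of the logarithms of the fibre sizes -/
theorem fibre_bound [Fintype I] (Φ : (I → H) →* A) (hΦ : Function.Injective Φ) (F : Finset A) :
    ∑ u, ∑ z ∈ F, Real.log (cnt F (relOne Φ u) z) ≤ F.card * Real.log F.card := by
  refine sum_sum_log_le F (relOne Φ) (relSet Φ) (relOne_equiv Φ) (relSet_equiv Φ) ?_ ?_ ?_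
  · rintro U u x y hu ⟨h, rfl⟩
    refine ⟨Pi.mulSingle u h, fun i hi => ?_, rfl⟩
    rw [Finset.mem_insert, not_or] at hi
    exact Pi.mulSingle_eq_of_ne (M := fun _ : I => H) hi.1 h
  · rintro U u x y hu ⟨φ, hφ, rfl⟩
    refine ⟨φ, fun i hi => ?_, rfl⟩
    rw [Finset.mem_insert, not_or] at hi
    exact hφ i hi.2
  · rintro U u x y hu ⟨h, rfl⟩ ⟨φ, hφ, h2⟩
    have h3 := hΦ (mul_left_cancel h2)
    have h4 : h = 1 := by
      have := congrFun h3 u
      rwa [Pi.mulSingle_eq_same, hφ u hu] at this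
    rw [h4, Pi.mulSingle_one, map_one, mul_one]

theorem inBall_map {B C : Type*} [Group B] [Group C] (f : B →* C) {m : ℕ} (s : Fin m → B) (n : ℕ)
    (y : B) (hy : InBall (List.ofFn s) n y) : InBall (List.ofFn fun i => f (s i)) n (f y) := by
  obtain ⟨l, hl, hx, rfl⟩ := hy
  refine ⟨l.map f, by rwa [List.length_map], ?_, (map_list_prod f l).symm⟩
  intro x hx'
  obtain ⟨z, hz, rfl⟩ := List.mem_map.1 hx'
  rcases hx z hz with h | h
  · obtain ⟨i, rfl⟩ := (List.mem_ofFn' s z).1 h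
    exact Or.inl ((List.mem_ofFn' _ _).2 ⟨i, rfl⟩)
  · obtain ⟨i, hi⟩ := (List.mem_ofFn' s z⁻¹).1 h
    refine Or.inr ((List.mem_ofFn' _ _).2 ⟨i, ?_⟩)
    change f (s i) = _
    rw [hi, map_inv]

open Classical in
theorem block_energy {m : ℕ} (Φ : (I → H) →* A) (σ : I → Fin m → H) (F : Finset A)
    (hF : F.Nonempty) (δ : ℝ) (hδ : 0 ≤ δ) (B : Finset I)
    (hpat : ∀ i, ∀ p ⊆ B, 2 * ((F.filter fun x => x * Φ (pat (fun u => σ u i) p) ∉ F).card : ℝ) ≤
      δ ^ 2 * F.card) (n : ℕ) (y : I → H) (hy : ∀ u, InBall (List.ofFn (σ u)) n (y u)) :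
    ∑ u ∈ B, 2 * ((F.filter fun x => x * Φ (Pi.mulSingle u (y u)) ∉ F).card : ℝ) / F.card ≤
      8 * n ^ 2 * m + 8 * m ^ 2 * δ ^ 2 * B.card := by
  have hFc : (0 : ℝ) < F.card := by exact_mod_cast hF.card_pos
  have h := energy (ι := I) (m := m) (reg (A := A)) reg_norm
    (fun u i => Φ (Pi.mulSingle u (σ u i))) (fun u v huv i j => by
      have := Pi.mulSingle_commute (f := fun _ : I => H) huv (σ u i) (σ v j)
      exact this.map Φ) B.toList B.nodup_toList (nind F) (nind_norm F hF) δ (by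
      intro i p hp
      rw [prod_single Φ (fun u => σ u i) p (hp.nodup B.nodup_toList)]
      have h1 := reg_nind F hF (Φ (pat (fun u => σ u i) p.toFinset))
      have h2 : ‖(reg (Φ (pat (fun u => σ u i) p.toFinset))) (nind F) - nind F‖ ^ 2 ≤ δ ^ 2 := by
        rw [h1, div_le_iff₀ hFc]
        refine hpat i _ fun u hu => ?_
        exact Finset.mem_toList.1 (hp.subset (List.mem_toFinset.1 hu))
      exact le_of_sq_le_sq' h2 hδ) n (fun u => Φ (Pi.mulSingle u (y u))) (fun u => by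
      exact inBall_map (Φ.comp (MonoidHom.mulSingle (fun _ : I => H) u)) (σ u) n (y u) (hy u))
  rw [Finset.toList_toFinset, Finset.length_toList] at h
  refine le_trans (le_of_eq ?_) h
  refine Finset.sum_congr rfl fun u _ => ?_
  rw [reg_nind F hF]

open Classical in
theorem total_energy [Fintype I] {m : ℕ} (Φ : (I → H) →* A) (σ : I → Fin m → H) (F : Finset A)
    (hF : F.Nonempty) (δ : ℝ) (hδ : 0 ≤ δ) (blk : I → Finset I) (r : ℕ) (hr : 0 < r)
    (hcard : ∀ ρ, (blk ρ).card = r) (hsymm : ∀ ρ u, u ∈ blk ρ → ρ ∈ blk u)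
    (hpat : ∀ ρ i, ∀ p ⊆ blk ρ, 2 * ((F.filter fun x => x * Φ (pat (fun u => σ u i) p) ∉ F).card : ℝ) ≤
      δ ^ 2 * F.card) (n : ℕ) (y : I → H) (hy : ∀ u, InBall (List.ofFn (σ u)) n (y u))
    (hbd : 8 * (n : ℝ) ^ 2 * m + 8 * m ^ 2 * δ ^ 2 * r ≤ r / 4) :
    ∑ u, ((F.filter fun x => x * Φ (Pi.mulSingle u (y u)) ∉ F).card : ℝ) ≤
      F.card * Fintype.card I / 8 := by
  have hFc : (0 : ℝ) < F.card := by exact_mod_cast hF.card_pos
  have hr' : (0 : ℝ) < r := by exact_mod_cast hr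
  set h : I → ℝ := fun u =>
    2 * ((F.filter fun x => x * Φ (Pi.mulSingle u (y u)) ∉ F).card : ℝ) / F.card with hh
  have h1 : ∀ ρ, ∑ u ∈ blk ρ, h u ≤ r / 4 := by
    intro ρ
    have := block_energy Φ σ F hF δ hδ (blk ρ) (hpat ρ) n y hy
    rw [hcard] at this
    exact this.trans hbd
  have h2 : ∑ ρ, ∑ u ∈ blk ρ, h u = r * ∑ u, h u := by
    have : ∀ ρ, ∑ u ∈ blk ρ, h u = ∑ u, if u ∈ blk ρ then h u else 0 := fun ρ => by
      rw [← Finset.sum_filter]
      congr 1
      ext u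
      simp
    rw [Finset.sum_congr rfl fun ρ _ => this ρ, Finset.sum_comm, Finset.mul_sum]
    refine Finset.sum_congr rfl fun u _ => ?_
    rw [← Finset.sum_filter, Finset.sum_const, nsmul_eq_mul]
    congr 2
    rw [← hcard u]
    congr 1
    ext ρ
    simp only [Finset.mem_filter, Finset.mem_univ, true_and]
    exact ⟨fun hx => hsymm _ _ hx, fun hx => hsymm _ _ hx⟩
  have h3 : r * ∑ u, h u ≤ Fintype.card I * (r / 4) := by
    rw [← h2]
    refine (Finset.sum_le_sum fun ρ _ => h1 ρ).trans ?_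
    rw [Finset.sum_const, nsmul_eq_mul, Finset.card_univ]
  have h4 : ∑ u, h u ≤ Fintype.card I / 4 := by
    have : (r : ℝ) * ∑ u, h u ≤ r * (Fintype.card I / 4) := by linarith
    exact le_of_mul_le_mul_left this hr'
  have h5 : ∑ u, h u = 2 / F.card *
      ∑ u, ((F.filter fun x => x * Φ (Pi.mulSingle u (y u)) ∉ F).card : ℝ) := by
    rw [Finset.mul_sum]
    refine Finset.sum_congr rfl fun u _ => ?_
    rw [hh]
    ring
  rw [h5] at h4
  set T : ℝ := ∑ u, ((F.filter fun x => x * Φ (Pi.mulSingle u (y u)) ∉ F).card : ℝ) with hT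
  clear_value T
  clear hpat h3 h2 h1 hsymm hcard
  have h6 : 2 / (F.card : ℝ) * T * (F.card / 2) ≤ Fintype.card I / 4 * (F.card / 2) :=
    mul_le_mul_of_nonneg_right h4 (by positivity)
  have h7 : 2 / (F.card : ℝ) * T * (F.card / 2) = T := by
    field_simp
  rw [h7] at h6
  linarith

open Classical in
/-- the lower bound for the size of an almost invariant set -/
theorem folner_abs [Fintype I] {m : ℕ} (Φ : (I → H) →* A) (hΦ : Function.Injective Φ) (σ : I → Fin m → H)
    (F : Finset A)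
    (hF : F.Nonempty) (δ : ℝ) (hδ : 0 ≤ δ) (blk : I → Finset I) (r : ℕ) (hr : 0 < r)
    (hcard : ∀ ρ, (blk ρ).card = r) (hsymm : ∀ ρ u, u ∈ blk ρ → ρ ∈ blk u)
    (hpat : ∀ ρ i, ∀ p ⊆ blk ρ, 2 * ((F.filter fun x => x * Φ (pat (fun u => σ u i) p) ∉ F).card : ℝ) ≤
      δ ^ 2 * F.card) (n N : ℕ) (hN : 2 ≤ N) (y : I → Fin N → H)
    (hinj : ∀ u, Function.Injective (y u))
    (hy : ∀ u l, InBall (List.ofFn (σ u)) n (y u l))
    (hbd : 8 * (n : ℝ) ^ 2 * m + 8 * m ^ 2 * δ ^ 2 * r ≤ r / 4) :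
    3 / 4 * Fintype.card I * Real.log (N / 2) ≤ Real.log F.card := by
  have hFc : (0 : ℝ) < F.card := by exact_mod_cast hF.card_pos
  have hN' : (0 : ℝ) < N := by
    have : 0 < N := by omega
    exact_mod_cast this
  have hlogN : 0 ≤ Real.log (N / 2) := by
    refine Real.log_nonneg ?_
    rw [le_div_iff₀ (by norm_num)]
    exact_mod_cast (by omega : 1 * 2 ≤ N)
  set d : I → A → ℕ := fun u z =>
    (Finset.univ.filter fun l : Fin N => z * Φ (Pi.mulSingle u (y u l)) ∈ F).card with hd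
  have h1 : ∀ u, ∀ z ∈ F, (Real.log (N / 2)) * (2 * (d u z : ℝ) / N - 1) ≤
      Real.log (cnt F (relOne Φ u) z) := by
    intro u z hz
    have hc1 : (1 : ℝ) ≤ cnt F (relOne Φ u) z := by
      exact_mod_cast cnt_pos (relOne_equiv Φ u).refl hz
    have hdc : d u z ≤ cnt F (relOne Φ u) z := by
      unfold cnt
      refine Finset.card_le_card_of_injOn (fun l => z * Φ (Pi.mulSingle u (y u l))) ?_ ?_
      · intro l hl
        rw [Finset.mem_coe, Finset.mem_filter] at hl ⊢
        exact ⟨hl.2, _, rfl⟩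
      · intro l _ l' _ hll
        have h2 := hΦ (mul_left_cancel hll)
        exact hinj u (Pi.mulSingle_injective u h2)
    have hdN : (d u z : ℝ) ≤ N := by
      have : d u z ≤ N := (Finset.card_le_univ _).trans (by simp)
      exact_mod_cast this
    by_cases hcase : (N : ℝ) / 2 ≤ d u z
    · have h3 : Real.log (N / 2) ≤ Real.log (cnt F (relOne Φ u) z) := by
        refine Real.log_le_log (by positivity) (hcase.trans ?_)
        exact_mod_cast hdc
      have h4 : 2 * (d u z : ℝ) / N - 1 ≤ 1 := by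
        rw [sub_le_iff_le_add, div_le_iff₀ hN']
        linarith
      nlinarith
    · push Not at hcase
      have h4 : 2 * (d u z : ℝ) / N - 1 ≤ 0 := by
        rw [sub_nonpos, div_le_one hN']
        linarith
      have h5 : 0 ≤ Real.log (cnt F (relOne Φ u) z) := Real.log_nonneg hc1
      nlinarith
  have h2 : ∀ u, ∑ z ∈ F, (d u z : ℝ) = ∑ l : Fin N, ((F.card : ℝ) -
      ((F.filter fun x => x * Φ (Pi.mulSingle u (y u l)) ∉ F).card : ℝ)) := by
    intro u
    have e1 : ∀ z ∈ F, (d u z : ℝ) =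
        ∑ l : Fin N, if z * Φ (Pi.mulSingle u (y u l)) ∈ F then (1 : ℝ) else 0 := by
      intro z _
      rw [← Finset.sum_filter, Finset.sum_const, nsmul_eq_mul, mul_one]
    rw [Finset.sum_congr rfl e1, Finset.sum_comm]
    refine Finset.sum_congr rfl fun l _ => ?_
    rw [← Finset.sum_filter, Finset.sum_const, nsmul_eq_mul, mul_one]
    have := Finset.card_filter_add_card_filter_not (s := F)
      (fun x => x * Φ (Pi.mulSingle u (y u l)) ∈ F)
    have h3 : ((F.filter fun x => x * Φ (Pi.mulSingle u (y u l)) ∈ F).card : ℝ) +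
        (F.filter fun x => x * Φ (Pi.mulSingle u (y u l)) ∉ F).card = F.card := by
      exact_mod_cast this
    linarith
  have h3 : ∑ u, ∑ z ∈ F, (d u z : ℝ) ≥ 7 / 8 * (Fintype.card I * N * F.card) := by
    rw [Finset.sum_congr rfl fun u _ => h2 u, Finset.sum_comm]
    have h4 : ∀ l : Fin N, ∑ u, ((F.card : ℝ) -
        ((F.filter fun x => x * Φ (Pi.mulSingle u (y u l)) ∉ F).card : ℝ)) ≥
        7 / 8 * (Fintype.card I * F.card) := by
      intro l
      rw [Finset.sum_sub_distrib, Finset.sum_const, nsmul_eq_mul, Finset.card_univ]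
      have := total_energy Φ σ F hF δ hδ blk r hr hcard hsymm hpat n (fun u => y u l)
        (fun u => hy u l) hbd
      linarith
    refine le_trans ?_ (Finset.sum_le_sum fun l _ => h4 l)
    rw [Finset.sum_const, nsmul_eq_mul, Finset.card_univ, Fintype.card_fin]
    linarith
  have h4 := fibre_bound Φ hΦ F
  have h5 : ∑ u, ∑ z ∈ F, (Real.log (N / 2)) * (2 * (d u z : ℝ) / N - 1) ≤
      ∑ u, ∑ z ∈ F, Real.log (cnt F (relOne Φ u) z) :=
    Finset.sum_le_sum fun u _ => Finset.sum_le_sum fun z hz => h1 u z hz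
  have h6 : ∑ u, ∑ z ∈ F, (Real.log (N / 2)) * (2 * (d u z : ℝ) / N - 1) =
      Real.log (N / 2) * (2 / N * ∑ u, ∑ z ∈ F, (d u z : ℝ) - Fintype.card I * F.card) := by
    have e1 : ∀ u, ∑ z ∈ F, (Real.log (N / 2)) * (2 * (d u z : ℝ) / N - 1) =
        Real.log (N / 2) * (2 / N * ∑ z ∈ F, (d u z : ℝ) - F.card) := by
      intro u
      rw [← Finset.mul_sum, Finset.sum_sub_distrib, Finset.sum_const, nsmul_eq_mul, mul_one]
      congr 2
      rw [Finset.mul_sum]
      exact Finset.sum_congr rfl fun z _ => by ring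
    rw [Finset.sum_congr rfl fun u _ => e1 u, ← Finset.mul_sum, Finset.sum_sub_distrib,
      Finset.sum_const, nsmul_eq_mul, Finset.card_univ, ← Finset.mul_sum]
  have h7 : Real.log (N / 2) * (3 / 4 * (Fintype.card I * F.card)) ≤
      Real.log (N / 2) * (2 / N * ∑ u, ∑ z ∈ F, (d u z : ℝ) - Fintype.card I * F.card) := by
    refine mul_le_mul_of_nonneg_left ?_ hlogN
    have h8 : 2 / (N : ℝ) * (7 / 8 * (Fintype.card I * N * F.card)) ≤
        2 / N * ∑ u, ∑ z ∈ F, (d u z : ℝ) := by gcongr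
    have h9 : 2 / (N : ℝ) * (7 / 8 * (Fintype.card I * N * F.card)) =
        7 / 4 * (Fintype.card I * F.card) := by
      field_simp
      ring
    linarith
  have h10 : Real.log (N / 2) * (3 / 4 * (Fintype.card I * F.card)) ≤ F.card * Real.log F.card := by
    rw [h6] at h5
    linarith
  have h11 : (3 / 4 * Fintype.card I * Real.log (N / 2)) * F.card ≤ Real.log F.card * F.card := by
    linarith
  exact le_of_mul_le_mul_right h11 hFc

end Pool.Agent.W380.Fol
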