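import Pool.Agent.W380.Fol.Tree

/-!
# Lifting straight words
-/

set_option autoImplicit false

namespace Pool.Agent.W380.Fol

section dihedral
variable {G : Type*} [Group G]

/-- the elements of the dihedral group generated by the involutions `s`, `t` that are products of
`p` mod 2 letters -/
def Dih (s t : G) (p : ZMod 2) (x : G) : Prop :=
  ∃ n : ℤ, x = (s * t) ^ n * (if p = 0 then 1 else s)

variable {s t : G} (hs : s * s = 1) (ht : t * t = 1)
include hs ht

theorem conj_zpow (n : ℤ) : s * (s * t) ^ n = (s * t) ^ (-n) * s := by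
  have hs' : s⁻¹ = s := inv_eq_of_mul_eq_one_left hs
  have ht' : t⁻¹ = t := inv_eq_of_mul_eq_one_left ht
  have h1 : s * (s * t) * s⁻¹ = (s * t)⁻¹ := by
    rw [mul_inv_rev, hs', ht', ← mul_assoc, hs, one_mul]
  have h2 : s * (s * t) ^ n * s⁻¹ = (s * t) ^ (-n) := by
    rw [zpow_neg, ← inv_zpow, ← h1, conj_zpow']
  rw [← h2, inv_mul_cancel_right]
where
  conj_zpow' : (s * (s * t) * s⁻¹) ^ n = s * (s * t) ^ n * s⁻¹ := by
    exact _root_.conj_zpow

theorem Dih.mul {p q : ZMod 2} {x y : G} (hx : Dih s t p x) (hy : Dih s t q y) :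
    Dih s t (p + q) (x * y) := by
  obtain ⟨n, rfl⟩ := hx
  obtain ⟨m, rfl⟩ := hy
  have h2 : ∀ z : ZMod 2, z = 0 ∨ z = 1 := by decide
  rcases h2 p with rfl | rfl
  · refine ⟨n + m, ?_⟩
    rw [if_pos rfl, mul_one, zero_add, zpow_add, mul_assoc]
  · rcases h2 q with rfl | rfl
    · refine ⟨n - m, ?_⟩
      rw [if_pos rfl, add_zero, if_neg (by decide), mul_one, mul_assoc,
        conj_zpow hs ht, sub_eq_add_neg, zpow_add, mul_assoc]
    · refine ⟨n - m, ?_⟩
      rw [if_neg (by decide), if_pos (by decide), mul_one, mul_assoc, ← mul_assoc s,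
        conj_zpow hs ht, mul_assoc ((s * t) ^ (-m)), hs, mul_one, sub_eq_add_neg, zpow_add]

theorem Dih.inv {p : ZMod 2} {x : G} (hx : Dih s t p x) : Dih s t p x⁻¹ := by
  obtain ⟨n, rfl⟩ := hx
  have hs' : s⁻¹ = s := inv_eq_of_mul_eq_one_left hs
  have h2 : ∀ z : ZMod 2, z = 0 ∨ z = 1 := by decide
  rcases h2 p with rfl | rfl
  · refine ⟨-n, ?_⟩
    rw [if_pos rfl, mul_one, mul_one, zpow_neg]
  · refine ⟨n, ?_⟩
    rw [if_neg (by decide), mul_inv_rev, hs', ← zpow_neg, conj_zpow hs ht, neg_neg]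

omit hs ht in
theorem Dih.one : Dih s t 0 1 := ⟨0, by simp⟩

omit hs ht in
theorem Dih.left : Dih s t 1 s := ⟨0, by simp⟩

theorem Dih.right : Dih s t 1 t := by
  refine ⟨-1, ?_⟩
  have hs' : s⁻¹ = s := inv_eq_of_mul_eq_one_left hs
  have ht' : t⁻¹ = t := inv_eq_of_mul_eq_one_left ht
  rw [if_neg (by decide), zpow_neg_one, mul_inv_rev, hs', ht', mul_assoc, hs, mul_one]

omit hs ht in
theorem Dih.zero {x : G} (hx : Dih s t 0 x) : x ∈ Subgroup.zpowers (s * t) := by
  obtain ⟨n, rfl⟩ := hx
  rw [if_pos rfl, mul_one]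
  exact ⟨n, rfl⟩

theorem Dih.prod {α : Type*} (l : List α) (f : α → G) (p : α → ZMod 2)
    (h : ∀ x ∈ l, Dih s t (p x) (f x)) : Dih s t (l.map p).sum (l.map f).prod := by
  induction l with
  | nil => exact Dih.one
  | cons x l ih =>
    rw [List.map_cons, List.map_cons, List.sum_cons, List.prod_cons]
    exact Dih.mul hs ht (h x List.mem_cons_self) (ih fun y hy => h y (List.mem_cons_of_mem _ hy))

end dihedral

/-- `x * y⁻¹` or `x⁻¹ * y` -/
def Q {G : Type*} [Group G] (s : Bool) (x y : G) : G := if s then x * y⁻¹ else x⁻¹ * y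

theorem Q_self {G : Type*} [Group G] (s : Bool) (x : G) : Q s x x = 1 := by
  cases s <;> simp [Q]

/-- `y` is a straight element of length `N` and class `κ` -/
def Str (w : ℕ → Fin 3) (e : Fin 3) (N : ℕ) (κ : Fin 3 → ZMod 2) (y : P) : Prop :=
  ∃ ξ : List (Fin 3), ξ.length = N ∧ (∀ x ∈ ξ, x ≠ e) ∧ par ξ = κ ∧ y = S w ξ

theorem zip_left {α β G : Type*} [Group G] (f : α → G) (g : β → G) (c : G) (X : List α)
    (Y : List β) (h : X.length = Y.length) (hY : ∀ y ∈ Y, g y = c) :
    List.zipWith (fun x y => f x * g y) X Y = X.map fun x => f x * c := by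
  induction X generalizing Y with
  | nil => simp
  | cons x X ih =>
    cases Y with
    | nil => simp at h
    | cons y Y =>
      rw [List.zipWith_cons_cons, List.map_cons, hY y List.mem_cons_self,
        ih Y (by simpa using h) fun z hz => hY z (List.mem_cons_of_mem _ hz)]

theorem zip_right {α β G : Type*} [Group G] (f : α → G) (g : β → G) (c : G) (X : List α)
    (Y : List β) (h : X.length = Y.length) (hX : ∀ x ∈ X, f x = c) :
    List.zipWith (fun x y => f x * g y) X Y = Y.map fun y => c * g y := by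
  induction X generalizing Y with
  | nil =>
    cases Y with
    | nil => simp
    | cons y Y => simp at h
  | cons x X ih =>
    cases Y with
    | nil => simp at h
    | cons y Y =>
      rw [List.zipWith_cons_cons, List.map_cons, hX x List.mem_cons_self,
        ih Y (by simpa using h) fun z hz => hX z (List.mem_cons_of_mem _ hz)]

/-- lifting at a level of type `e` -/
theorem lift_par {w : ℕ → Fin 3} {e : Fin 3} (hw : w 0 = e) {N : ℕ} {κ κ' : Fin 3 → ZMod 2}
    {y y' : P} (h : Str (sh w 1) e N κ y) (h' : Str (sh w 1) e N κ' y') :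
    Str w e (2 * N) (κ + κ') (sec (y⁻¹, y')) := by
  obtain ⟨ξ, hl, hx, hp, rfl⟩ := h
  obtain ⟨ξ', hl', hx', hp', rfl⟩ := h'
  have hlen : ξ.reverse.length = ξ'.length := by rw [List.length_reverse, hl, hl']
  refine ⟨inter ξ.reverse ξ', ?_, ?_, ?_, ?_⟩
  · rw [length_inter _ _ hlen, List.length_reverse, hl]
  · intro x hx1
    rcases mem_inter _ _ _ hx1 with h1 | h1
    · exact hx x (List.mem_reverse.1 h1)
    · exact hx' x h1
  · rw [par_inter _ _ hlen, par_reverse, hp, hp']
  · rw [S_inter _ _ _ hlen]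
    rw [zip_left (fun x => B (sh w 1) x) (fun y => om w y) a _ _ hlen
        fun y hy => om_ne (hw ▸ hx' y hy),
      zip_right (fun x => om w x) (fun y => B (sh w 1) y) a _ _ hlen
        fun x hx1 => om_ne (hw ▸ hx x (List.mem_reverse.1 hx1)), S_inv]
    rfl

theorem garb_parity {w : ℕ → Fin 3} {e g : Fin 3} (hw : w 0 ≠ e) (hg : g ≠ e) (hgw : g ≠ w 0)
    (ξ : List (Fin 3)) (hx : ∀ x ∈ ξ, x ≠ e) :
    (ξ.map fun x => if x = g then (0 : ZMod 2) else 1).sum = (ξ.length : ZMod 2) + par ξ g := by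
  induction ξ with
  | nil => simp [par]
  | cons x ξ ih =>
    rw [List.map_cons, List.sum_cons, ih fun y hy => hx y (List.mem_cons_of_mem _ hy)]
    unfold par
    rw [List.length_cons, List.count_cons]
    have h2 : (1 : ZMod 2) + 1 = 0 := by decide
    by_cases h : x = g
    · subst h
      rw [if_pos rfl, beq_self_eq_true, if_pos rfl]
      push_cast
      linear_combination -h2
    · have h3 : (x == g) = false := by simpa using h
      simp only [h, if_false, h3]
      push_cast
      ring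

theorem om_cases {w : ℕ → Fin 3} {e g x : Fin 3} (hw : w 0 ≠ e) (hg : g ≠ e) (hgw : g ≠ w 0)
    (hx : x ≠ e) : (x = g ∧ om w x = a) ∨ (x ≠ g ∧ om w x = 1) := by
  by_cases h : x = g
  · exact Or.inl ⟨h, om_ne (h ▸ hgw)⟩
  · refine Or.inr ⟨h, ?_⟩
    have : x = w 0 := by omega
    rw [this, om_self]

/-- lifting to the right at a level of type different from `e` -/
theorem lift_right {w : ℕ → Fin 3} {e g : Fin 3} (hw : w 0 ≠ e) (hg : g ≠ e) (hgw : g ≠ w 0)
    {N : ℕ} {κ : Fin 3 → ZMod 2} {y : P} (h : Str (sh w 1) e N κ y) :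
    ∃ γ : P, Dih a (B (sh w 1) g) ((N : ZMod 2) + κ g) γ ∧
      Str w e (2 * N) (par (List.replicate N g) + κ) (sec (γ, y)) := by
  obtain ⟨ξ, hl, hx, hp, rfl⟩ := h
  have hlen : (List.replicate N g).length = ξ.length := by rw [List.length_replicate, hl]
  refine ⟨(ξ.map fun y => B (sh w 1) g * om w y).prod, ?_, inter (List.replicate N g) ξ, ?_, ?_,
    ?_, ?_⟩
  · have h1 := Dih.prod a_mul_a (B_mul_self (sh w 1) g) ξ (fun y => B (sh w 1) g * om w y)
      (fun x => if x = g then (0 : ZMod 2) else 1) (by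
        intro x hx1
        rcases om_cases hw hg hgw (hx x hx1) with ⟨h2, h3⟩ | ⟨h2, h3⟩
        · rw [if_pos h2, h3]
          exact Dih.mul a_mul_a (B_mul_self _ _) (Dih.right a_mul_a (B_mul_self _ _)) Dih.left
        · rw [if_neg h2, h3, mul_one]
          exact Dih.right a_mul_a (B_mul_self _ _))
    rw [garb_parity hw hg hgw ξ hx, hl, hp] at h1
    exact h1
  · rw [length_inter _ _ hlen, List.length_replicate]
  · intro x hx1
    rcases mem_inter _ _ _ hx1 with h1 | h1
    · rw [List.eq_of_mem_replicate h1]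
      exact hg
    · exact hx x h1
  · rw [par_inter _ _ hlen, hp]
  · rw [S_inter _ _ _ hlen,
      zip_right (fun x => B (sh w 1) x) (fun y => om w y) (B (sh w 1) g) _ _ hlen
        fun x hx1 => by rw [List.eq_of_mem_replicate hx1],
      zip_right (fun x => om w x) (fun y => B (sh w 1) y) a _ _ hlen
        fun x hx1 => by rw [List.eq_of_mem_replicate hx1, om_ne hgw]]
    rfl

/-- lifting to the left at a level of type different from `e` -/
theorem lift_left {w : ℕ → Fin 3} {e g : Fin 3} (hw : w 0 ≠ e) (hg : g ≠ e) (hgw : g ≠ w 0)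
    {N : ℕ} {κ : Fin 3 → ZMod 2} {y : P} (h : Str (sh w 1) e N κ y) :
    ∃ γ : P, Dih a (B (sh w 1) g) ((N : ZMod 2) + κ g) γ ∧
      Str w e (2 * N) (κ + par (List.replicate N g)) (sec (y⁻¹, γ)) := by
  obtain ⟨ξ, hl, hx, hp, rfl⟩ := h
  have hlen : ξ.reverse.length = (List.replicate N g).length := by
    rw [List.length_replicate, List.length_reverse, hl]
  have hx' : ∀ x ∈ ξ.reverse, x ≠ e := fun x h => hx x (List.mem_reverse.1 h)
  refine ⟨(ξ.reverse.map fun x => om w x * B (sh w 1) g).prod, ?_,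
    inter ξ.reverse (List.replicate N g), ?_, ?_, ?_, ?_⟩
  · have h1 := Dih.prod a_mul_a (B_mul_self (sh w 1) g) ξ.reverse
      (fun x => om w x * B (sh w 1) g)
      (fun x => if x = g then (0 : ZMod 2) else 1) (by
        intro x hx1
        rcases om_cases hw hg hgw (hx' x hx1) with ⟨h2, h3⟩ | ⟨h2, h3⟩
        · rw [if_pos h2, h3]
          exact Dih.mul a_mul_a (B_mul_self _ _) Dih.left (Dih.right a_mul_a (B_mul_self _ _))
        · rw [if_neg h2, h3, one_mul]
          exact Dih.right a_mul_a (B_mul_self _ _))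
    rw [garb_parity hw hg hgw ξ.reverse hx', List.length_reverse, hl, par_reverse, hp] at h1
    exact h1
  · rw [length_inter _ _ hlen, List.length_reverse, hl]
  · intro x hx1
    rcases mem_inter _ _ _ hx1 with h1 | h1
    · exact hx' x h1
    · rw [List.eq_of_mem_replicate h1]
      exact hg
  · rw [par_inter _ _ hlen, par_reverse, hp]
  · rw [S_inter _ _ _ hlen,
      zip_left (fun x => B (sh w 1) x) (fun y => om w y) a _ _ hlen
        fun x hx1 => by rw [List.eq_of_mem_replicate hx1, om_ne hgw],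
      zip_left (fun x => om w x) (fun y => B (sh w 1) y) (B (sh w 1) g) _ _ hlen
        fun x hx1 => by rw [List.eq_of_mem_replicate hx1], S_inv]

/-- the block of `ρ`: the vertices agreeing with `ρ` at the levels whose type is not `e` -/
def InBlk (w : ℕ → Fin 3) (e : Fin 3) (k : ℕ) (ρ u : Fin k → Bool) : Prop :=
  ∀ i : Fin k, w i ≠ e → u i = ρ i

instance (w : ℕ → Fin 3) (e : Fin 3) (k : ℕ) (ρ u : Fin k → Bool) :
    Decidable (InBlk w e k ρ u) := by
  unfold InBlk
  infer_instance

theorem inBlk_cons (w : ℕ → Fin 3) (e : Fin 3) (k : ℕ) (ρ : Fin (k + 1) → Bool) (c : Bool)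
    (u : Fin k → Bool) : InBlk w e (k + 1) ρ (Fin.cons c u) ↔
      (w 0 ≠ e → c = ρ 0) ∧ InBlk (sh w 1) e k (Fin.tail ρ) u := by
  unfold InBlk
  rw [Fin.forall_fin_succ]
  rfl

/-- the sign at a vertex -/
def sg : (k : ℕ) → Bool → (Fin k → Bool) → Bool
  | 0, s, _ => s
  | k + 1, s, u => sg k (if u 0 then s else !s) (Fin.tail u)

theorem sg_cons (k : ℕ) (s c : Bool) (u : Fin k → Bool) :
    sg (k + 1) s (Fin.cons c u) = sg k (if c then s else !s) u := rfl

theorem lift_sec {J : Type*} (α β : J → P) (W : FreeGroup J) :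
    FreeGroup.lift (fun j => sec (α j, β j)) W =
      sec (FreeGroup.lift α W, FreeGroup.lift β W) := by
  have : FreeGroup.lift (fun j => sec (α j, β j)) =
      sec.comp (MonoidHom.prod (FreeGroup.lift α) (FreeGroup.lift β)) := by
    ext j
    simp
  rw [this]
  rfl

theorem Q_sec (s : Bool) (x y x' y' : P) :
    Q s (sec (x⁻¹, x')) (sec (y⁻¹, y')) = sec (Q (!s) x y, Q s x' y') := by
  cases s <;> simp [Q, ← map_inv, ← map_mul]

theorem Q_sec' (s : Bool) (x y x' y' : P) :
    Q s (sec (x, x')) (sec (y, y')) = sec (Q s x y, Q s x' y') := by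
  cases s <;> simp [Q, ← map_inv, ← map_mul]

theorem lift_comm {G J : Type*} [Group G] (t : G) (f : J → G)
    (hf : ∀ j, f j ∈ Subgroup.zpowers t) (W : FreeGroup J) (hW : W ∈ commutator (FreeGroup J)) :
    FreeGroup.lift f W = 1 := by
  choose n hn using fun j => Subgroup.mem_zpowers_iff.1 (hf j)
  let f' : J → Multiplicative ℤ := fun j => Multiplicative.ofAdd (n j)
  have h1 : FreeGroup.lift f = (zpowersHom G t).comp (FreeGroup.lift f') := by
    ext j
    simp [f', hn]
  have h2 : FreeGroup.lift f' W = 1 := by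
    have := Abelianization.commutator_subset_ker (FreeGroup.lift f') hW
    exact this
  rw [h1, MonoidHom.comp_apply, h2, map_one]

theorem Q_dih {w : ℕ → Fin 3} {g : Fin 3} (s : Bool) {p : ZMod 2} {x y : P}
    (hx : Dih a (B w g) p x) (hy : Dih a (B w g) p y) :
    Q s x y ∈ Subgroup.zpowers (a * B w g) := by
  have h0 : p + p = 0 := by
    have : ∀ p : ZMod 2, p + p = 0 := by decide
    exact this p
  refine Dih.zero ?_
  rw [← h0]
  cases s
  · exact Dih.mul a_mul_a (B_mul_self _ _) (Dih.inv a_mul_a (B_mul_self _ _) hx) hy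
  · exact Dih.mul a_mul_a (B_mul_self _ _) hx (Dih.inv a_mul_a (B_mul_self _ _) hy)

/-- simultaneous lifting to a block -/
theorem lift_claim {J : Type*} (e : Fin 3) (N₀ : ℕ) : ∀ (k : ℕ) (w : ℕ → Fin 3)
    (ρ : Fin k → Bool) (κ : (Fin k → Bool) → Fin 3 → ZMod 2) (x : J → (Fin k → Bool) → P)
    (y : (Fin k → Bool) → P), (∀ j u, Str (sh w k) e N₀ (κ u) (x j u)) →
    (∀ u, Str (sh w k) e N₀ (κ u) (y u)) →
    ∃ (κ' : Fin 3 → ZMod 2) (X : J → P) (Y : P), (∀ j, Str w e (2 ^ k * N₀) κ' (X j)) ∧
      Str w e (2 ^ k * N₀) κ' Y ∧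
      ∀ (s : Bool) (W : FreeGroup J), W ∈ commutator (FreeGroup J) →
        FreeGroup.lift (fun j => Q s (X j) Y) W =
          spread k (fun u => if InBlk w e k ρ u then
            FreeGroup.lift (fun j => Q (sg k s u) (x j u) (y u)) W else 1) := by
  intro k
  induction k with
  | zero =>
    intro w ρ κ x y hx hy
    refine ⟨κ Fin.elim0, fun j => x j Fin.elim0, y Fin.elim0, fun j => ?_, ?_, ?_⟩
    · rw [pow_zero, one_mul]
      exact hx j Fin.elim0
    · rw [pow_zero, one_mul]
      exact hy Fin.elim0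
    · intro s W _
      change _ = (if InBlk w e 0 ρ Fin.elim0 then
            FreeGroup.lift (fun j => Q (sg 0 s Fin.elim0) (x j Fin.elim0) (y Fin.elim0)) W else 1)
      have hb : InBlk w e 0 ρ Fin.elim0 := fun i => i.elim0
      rw [if_pos hb]
      rfl
  | succ k ih =>
    intro w ρ κ x y hx hy
    have ih' := fun c : Bool => ih (sh w 1) (Fin.tail ρ) (fun u => κ (Fin.cons c u))
      (fun j u => x j (Fin.cons c u)) (fun u => y (Fin.cons c u))
      (fun j u => hx j (Fin.cons c u)) (fun u => hy (Fin.cons c u))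
    have hN : 2 ^ (k + 1) * N₀ = 2 * (2 ^ k * N₀) := by ring
    rw [hN]
    by_cases hw : w 0 = e
    · obtain ⟨κ0, X0, Y0, hX0, hY0, h0⟩ := ih' false
      obtain ⟨κ1, X1, Y1, hX1, hY1, h1⟩ := ih' true
      refine ⟨κ0 + κ1, fun j => sec ((X0 j)⁻¹, X1 j), sec (Y0⁻¹, Y1),
        fun j => lift_par hw (hX0 j) (hX1 j), lift_par hw hY0 hY1, fun s W hW => ?_⟩
      simp only [Q_sec]
      rw [lift_sec, h0 _ W hW, h1 _ W hW, spread_succ]
      congr 2
      · congr 1
        funext u
        simp only [inBlk_cons, hw, ne_eq, not_true_eq_false, false_imp_iff, true_and, sg_cons]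
        rfl
      · congr 1
        funext u
        simp only [inBlk_cons, hw, ne_eq, not_true_eq_false, false_imp_iff, true_and, sg_cons]
        rfl
    · obtain ⟨g, hg, hgw⟩ : ∃ g : Fin 3, g ≠ e ∧ g ≠ w 0 := by
        have : ∀ e f : Fin 3, ∃ g : Fin 3, g ≠ e ∧ g ≠ f := by decide
        exact this e (w 0)
      cases hρ : ρ 0
      · obtain ⟨κ0, X0, Y0, hX0, hY0, h0⟩ := ih' false
        choose γ hγ hS using fun j => lift_left hw hg hgw (hX0 j)
        obtain ⟨γ', hγ', hS'⟩ := lift_left hw hg hgw hY0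
        refine ⟨_, fun j => sec ((X0 j)⁻¹, γ j), sec (Y0⁻¹, γ'), hS, hS', fun s W hW => ?_⟩
        simp only [Q_sec]
        rw [lift_sec, h0 _ W hW, lift_comm (a * B (sh w 1) g) _ (fun j => Q_dih s (hγ j) hγ') W hW,
          spread_succ]
        congr 2
        · congr 1
          funext u
          simp only [inBlk_cons, hw, hρ, ne_eq, not_false_eq_true, forall_const, true_and, sg_cons]
          rfl
        · refine (map_one (spread k)).symm.trans (congrArg (spread k) ?_)
          funext u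
          simp only [inBlk_cons, hw, hρ, ne_eq, not_false_eq_true, forall_const,
            Bool.true_eq_false, false_and, if_false]
          rfl
      · obtain ⟨κ1, X1, Y1, hX1, hY1, h1⟩ := ih' true
        choose γ hγ hS using fun j => lift_right hw hg hgw (hX1 j)
        obtain ⟨γ', hγ', hS'⟩ := lift_right hw hg hgw hY1
        refine ⟨_, fun j => sec (γ j, X1 j), sec (γ', Y1), hS, hS', fun s W hW => ?_⟩
        simp only [Q_sec']
        rw [lift_sec, h1 _ W hW, lift_comm (a * B (sh w 1) g) _ (fun j => Q_dih s (hγ j) hγ') W hW,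
          spread_succ]
        congr 2
        · refine (map_one (spread k)).symm.trans (congrArg (spread k) ?_)
          funext u
          simp only [inBlk_cons, hw, hρ, ne_eq, not_false_eq_true, forall_const,
            Bool.false_eq_true, false_and, if_false]
          rfl
        · congr 1
          funext u
          simp only [inBlk_cons, hw, hρ, ne_eq, not_false_eq_true, forall_const, true_and, sg_cons]
          rfl

end Pool.Agent.W380.Fol
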