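import Pool.Agent.W380.Fol.Energy
import Pool.Agent.W380.Fol.Lift

/-!
# Finitely generated infinite subgroups generated by commutator words
-/

set_option autoImplicit false

namespace Pool.Agent.W380.Fol

/-! ### growth of balls -/

section
variable {H : Type*} [Group H]

theorem inBall_one (L : List H) (n : ℕ) : InBall L n 1 :=
  ⟨[], Nat.zero_le _, by simp, rfl⟩

theorem inBall_mono {L : List H} {n m : ℕ} (h : n ≤ m) {y : H} (hy : InBall L n y) :
    InBall L m y := by
  obtain ⟨l, hl, hx, rfl⟩ := hy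
  exact ⟨l, hl.trans h, hx, rfl⟩

theorem inBall_mul {L : List H} {n : ℕ} {y x : H} (hy : InBall L n y) (hx : x ∈ L ∨ x⁻¹ ∈ L) :
    InBall L (n + 1) (y * x) := by
  obtain ⟨l, hl, hxs, rfl⟩ := hy
  refine ⟨l ++ [x], by simpa using hl, ?_, by simp⟩
  intro z hz
  rcases List.mem_append.1 hz with h | h
  · exact hxs z h
  · rw [List.mem_singleton.1 h]
    exact hx

theorem exists_inj_ball (L : List H)
    (hinf : (Subgroup.closure {x | x ∈ L} : Set H).Infinite) (n : ℕ) :
    ∃ y : Fin (n + 1) → H, Function.Injective y ∧ ∀ l, InBall L n (y l) := by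
  induction n with
  | zero =>
    refine ⟨fun _ => 1, fun i j _ => by omega, fun _ => inBall_one L 0⟩
  | succ n ih =>
    obtain ⟨y, hy, hb⟩ := ih
    -- there is an element of the next ball that is not one of the `y`
    have key : ∃ z, InBall L (n + 1) z ∧ z ∉ Set.range y := by
      by_contra hcon
      push Not at hcon
      refine hinf ((Set.finite_range y).subset ?_)
      intro x hx
      have h1 : ∀ z ∈ Set.range y, ∀ s, (s ∈ L ∨ s⁻¹ ∈ L) → z * s ∈ Set.range y := by
        rintro z ⟨i, rfl⟩ s hs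
        exact hcon _ (inBall_mul (hb i) hs)
      refine Subgroup.closure_induction_right (p := fun x _ => x ∈ Set.range y)
        (hcon 1 (inBall_one L _)) (fun x _ s hs hx => h1 x hx s (Or.inl hs))
        (fun x _ s hs hx => h1 x hx s⁻¹ (Or.inr (by rw [inv_inv]; exact hs))) hx
    obtain ⟨z, hz, hzy⟩ := key
    refine ⟨Fin.snoc y z, ?_, ?_⟩
    · exact Fin.snoc_injective_of_injective hy hzy
    · intro l
      refine Fin.lastCases ?_ (fun i => ?_) l
      · rw [Fin.snoc_last]
        exact hz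
      · rw [Fin.snoc_castSucc]
        exact inBall_mono (Nat.le_succ n) (hb i)

end

/-! ### commutator words -/

/-- the standard transversal words -/
def tw {G : Type*} [Group G] (r : Fin 3 → G) (n : Fin 3 → Fin 4) : G :=
  r 0 ^ (n 0 : ℕ) * r 1 ^ (n 1 : ℕ) * r 2 ^ (n 2 : ℕ)

/-- the next exponent vector -/
def nxt (n : Fin 3 → Fin 4) (j : Fin 3) : Fin 3 → Fin 4 := Function.update n j (n j + 1)

/-- the commutator words -/
def Wd (i : (Fin 3 → Fin 4) × Fin 3) : FreeGroup (Fin 3) :=
  tw FreeGroup.of i.1 * FreeGroup.of i.2 * (tw FreeGroup.of (nxt i.1 i.2))⁻¹ *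
    (if i.1 i.2 = 3 then (FreeGroup.of i.2 ^ 4)⁻¹ else 1)

theorem map_tw {G K : Type*} [Group G] [Group K] (φ : G →* K) (r : Fin 3 → G)
    (n : Fin 3 → Fin 4) : φ (tw r n) = tw (fun j => φ (r j)) n := by
  simp [tw]

theorem fin4_succ (x : Fin 4) (h : x ≠ 3) : ((x + 1 : Fin 4) : ℕ) = x + 1 := by
  revert x; decide

theorem tw_eq_prod {C : Type*} [CommGroup C] (x : Fin 3 → C) (n : Fin 3 → Fin 4) :
    tw x n = ∏ i, x i ^ (n i : ℕ) := by
  rw [Fin.prod_univ_three]
  rfl

theorem tw_step {C : Type*} [CommGroup C] (x : Fin 3 → C) (n : Fin 3 → Fin 4) (j : Fin 3) :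
    tw x n * x j = tw x (nxt n j) * (if n j = 3 then x j ^ 4 else 1) := by
  have h1 : ∀ m : Fin 3 → Fin 4, tw x m =
      x j ^ (m j : ℕ) * ∏ i ∈ Finset.univ.erase j, x i ^ (m i : ℕ) := fun m => by
    rw [tw_eq_prod]
    exact (Finset.mul_prod_erase Finset.univ (fun i => x i ^ (m i : ℕ)) (Finset.mem_univ j)).symm
  have h2 : ∏ i ∈ Finset.univ.erase j, x i ^ (nxt n j i : ℕ) =
      ∏ i ∈ Finset.univ.erase j, x i ^ (n i : ℕ) := by
    refine Finset.prod_congr rfl fun i hi => ?_
    rw [nxt, Function.update_of_ne (Finset.ne_of_mem_erase hi)]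
  rw [h1 n, h1 (nxt n j), h2]
  generalize ∏ i ∈ Finset.univ.erase j, x i ^ (n i : ℕ) = R
  have h3 : nxt n j j = n j + 1 := Function.update_self _ _ _
  rw [h3]
  by_cases h : n j = 3
  · rw [if_pos h, h]
    have e1 : ((3 : Fin 4) : ℕ) = 3 := rfl
    have e2 : ((3 + 1 : Fin 4) : ℕ) = 0 := rfl
    rw [e1, e2, pow_zero, one_mul, pow_succ (x j) 3, mul_right_comm, mul_comm]
  · rw [if_neg h, mul_one, fin4_succ _ h, pow_succ, mul_right_comm]

theorem Wd_mem (i : (Fin 3 → Fin 4) × Fin 3) : Wd i ∈ commutator (FreeGroup (Fin 3)) := by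
  rw [← Abelianization.ker_of, MonoidHom.mem_ker]
  obtain ⟨n, j⟩ := i
  unfold Wd
  rw [map_mul, map_mul, map_mul, map_inv, map_tw, map_tw]
  simp only []
  have e : Abelianization.of (if n j = 3 then ((FreeGroup.of j : FreeGroup (Fin 3)) ^ 4)⁻¹ else 1) =
      (if n j = 3 then (Abelianization.of (FreeGroup.of j)) ^ 4 else 1)⁻¹ := by
    split_ifs
    · rw [map_inv, map_pow]
    · rw [map_one, inv_one]
  rw [e, mul_inv_eq_one, tw_step (fun j => Abelianization.of (FreeGroup.of j)) n j,
    mul_inv_eq_iff_eq_mul, mul_comm]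

theorem lift_Wd {G : Type*} [Group G] (r : Fin 3 → G) (hr : ∀ j, r j ^ 4 = 1)
    (i : (Fin 3 → Fin 4) × Fin 3) :
    FreeGroup.lift r (Wd i) = tw r i.1 * r i.2 * (tw r (nxt i.1 i.2))⁻¹ := by
  unfold Wd
  rw [map_mul, map_mul, map_mul, map_inv, map_tw, map_tw]
  simp only [FreeGroup.lift_apply_of]
  split_ifs
  · rw [map_inv, map_pow, FreeGroup.lift_apply_of, hr, inv_one, mul_one]
  · rw [map_one, mul_one]

/-- if the subgroup generated by the commutator words is finite, so is the group -/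
theorem finite_of_Wd {G : Type*} [Group G] (r : Fin 3 → G) (hr : ∀ j, r j ^ 4 = 1)
    (hfin : (Subgroup.closure (Set.range fun i => FreeGroup.lift r (Wd i)) : Set G).Finite) :
    (Subgroup.closure (Set.range r) : Set G).Finite := by
  set K := Subgroup.closure (Set.range fun i => FreeGroup.lift r (Wd i)) with hK
  have hM : (Set.image2 (fun k t => k * t) (K : Set G) (Set.range (tw r))).Finite :=
    hfin.image2 _ (Set.finite_range _)
  refine hM.subset ?_
  have hstep : ∀ x ∈ Set.image2 (fun k t => k * t) (K : Set G) (Set.range (tw r)), ∀ j,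
      x * r j ∈ Set.image2 (fun k t => k * t) (K : Set G) (Set.range (tw r)) := by
    rintro x ⟨k, hk, t, ⟨n, rfl⟩, rfl⟩ j
    refine ⟨k * FreeGroup.lift r (Wd (n, j)), K.mul_mem hk (Subgroup.subset_closure ⟨_, rfl⟩),
      tw r (nxt n j), ⟨_, rfl⟩, ?_⟩
    simp only []
    rw [lift_Wd r hr]
    group
  intro x hx
  refine Subgroup.closure_induction_right (s := Set.range r)
    (p := fun x _ => x ∈ Set.image2 (fun k t => k * t) (K : Set G) (Set.range (tw r)))
    ?_ ?_ ?_ hx
  · exact ⟨1, K.one_mem, tw r 0, ⟨_, rfl⟩, by simp [tw]⟩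
  · rintro x _ s ⟨j, rfl⟩ hx
    exact hstep x hx j
  · rintro x _ s ⟨j, rfl⟩ hx
    have h3 : (r j)⁻¹ = r j * r j * r j := by
      rw [inv_eq_iff_mul_eq_one, ← hr j]
      simp [pow_succ, mul_assoc]
    rw [h3, ← mul_assoc, ← mul_assoc]
    exact hstep _ (hstep _ (hstep _ hx j) j) j

/-! ### the dihedral configuration -/

section
variable {G : Type*} [Group G]

theorem mem_normalizer_of {D : Set G} {s : G} (hs : s * s = 1)
    (h : ∀ r ∈ D, s * r * s ∈ Subgroup.closure D) :
    s ∈ Subgroup.normalizer (Subgroup.closure D : Set G) := by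
  have hs' : s⁻¹ = s := inv_eq_of_mul_eq_one_left hs
  have key : ∀ x ∈ Subgroup.closure D, s * x * s⁻¹ ∈ Subgroup.closure D := by
    intro x hx
    induction hx using Subgroup.closure_induction with
    | mem x hx => rw [hs']; exact h x hx
    | one => simp
    | mul x y _ _ ihx ihy =>
      have : s * (x * y) * s⁻¹ = (s * x * s⁻¹) * (s * y * s⁻¹) := by group
      rw [this]
      exact Subgroup.mul_mem _ ihx ihy
    | inv x _ ih =>
      have : s * x⁻¹ * s⁻¹ = (s * x * s⁻¹)⁻¹ := by group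
      rw [this]
      exact Subgroup.inv_mem _ ih
  rw [Subgroup.mem_normalizer_iff]
  intro x
  refine ⟨key x, fun hx => ?_⟩
  have h2 := key _ hx
  rw [hs'] at h2
  have : s * (s * x * s) * s = (s * s) * x * (s * s) := by group
  rw [this, hs, one_mul, mul_one] at h2
  exact h2

/-- if the rotations generate a finite group, so do `a`, `φ`, `E 0` -/
theorem finite_of_rot {a φ E0 E1 E2 E3 : G} (ha : a * a = 1) (hφ : φ * φ = 1)
    (h4 : (a * φ) ^ 4 = 1)
    (h0 : E0 * E0 = 1) (h1 : E1 * E1 = 1) (h2 : E2 * E2 = 1) (h3 : E3 * E3 = 1)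
    (ha0 : a * E0 * a = E1) (ha1 : a * E1 * a = E0) (ha2 : a * E2 * a = E3)
    (ha3 : a * E3 * a = E2) (hp0 : φ * E0 * φ = E0) (hp1 : φ * E1 * φ = E3)
    (hp2 : φ * E2 * φ = E2) (hp3 : φ * E3 * φ = E1)
    (hfin : (Subgroup.closure {E1 * E2, E2 * E3, E3 * E0} : Set G).Finite) :
    (Subgroup.closure {a, φ, E0} : Set G).Finite := by
  set D := Subgroup.closure {E1 * E2, E2 * E3, E3 * E0} with hD
  have ia : a⁻¹ = a := inv_eq_of_mul_eq_one_left ha
  have iφ : φ⁻¹ = φ := inv_eq_of_mul_eq_one_left hφ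
  have i0 : E0⁻¹ = E0 := inv_eq_of_mul_eq_one_left h0
  have i1 : E1⁻¹ = E1 := inv_eq_of_mul_eq_one_left h1
  have i2 : E2⁻¹ = E2 := inv_eq_of_mul_eq_one_left h2
  have i3 : E3⁻¹ = E3 := inv_eq_of_mul_eq_one_left h3
  have m12 : E1 * E2 ∈ D := Subgroup.subset_closure (by simp)
  have m23 : E2 * E3 ∈ D := Subgroup.subset_closure (by simp)
  have m30 : E3 * E0 ∈ D := Subgroup.subset_closure (by simp)
  have m21 : E2 * E1 ∈ D := by
    have := D.inv_mem m12
    rwa [mul_inv_rev, i1, i2] at this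
  have m32 : E3 * E2 ∈ D := by
    have := D.inv_mem m23
    rwa [mul_inv_rev, i2, i3] at this
  have m03 : E0 * E3 ∈ D := by
    have := D.inv_mem m30
    rwa [mul_inv_rev, i3, i0] at this
  have m10 : E1 * E0 ∈ D := by
    have h5 := D.mul_mem (D.mul_mem m12 m23) m30
    have : E1 * E2 * (E2 * E3) * (E3 * E0) = E1 * (E2 * E2) * (E3 * E3) * E0 := by
      simp only [mul_assoc]
    rwa [this, h2, h3, mul_one, mul_one] at h5
  have cj : ∀ s x y : G, s * s = 1 → s * (x * y) * s = (s * x * s) * (s * y * s) := by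
    intro s x y hs
    have : s * x * s * (s * y * s) = s * x * (s * s) * y * s := by simp only [mul_assoc]
    rw [this, hs, mul_one]
    simp only [mul_assoc]
  have na : a ∈ Subgroup.normalizer (D : Set G) := by
    refine mem_normalizer_of ha ?_
    intro r hr
    rcases hr with rfl | rfl | rfl
    · rw [cj a _ _ ha, ha1, ha2]; exact m03
    · rw [cj a _ _ ha, ha2, ha3]; exact m32
    · rw [cj a _ _ ha, ha3, ha0]; exact m21
  have nφ : φ ∈ Subgroup.normalizer (D : Set G) := by
    refine mem_normalizer_of hφ ?_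
    intro r hr
    rcases hr with rfl | rfl | rfl
    · rw [cj φ _ _ hφ, hp1, hp2]; exact m32
    · rw [cj φ _ _ hφ, hp2, hp3]; exact m21
    · rw [cj φ _ _ hφ, hp3, hp0]; exact m10
  have nz : ∀ z ∈ Subgroup.zpowers (a * φ), z ∈ Subgroup.normalizer (D : Set G) := by
    intro z hz
    have : Subgroup.zpowers (a * φ) ≤ Subgroup.normalizer (D : Set G) := by
      rw [Subgroup.zpowers_le]
      exact Subgroup.mul_mem _ na nφ
    exact this hz
  have hZ : (Subgroup.zpowers (a * φ) : Set G).Finite := by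
    have : IsOfFinOrder (a * φ) := isOfFinOrder_iff_pow_eq_one.2 ⟨4, by norm_num, h4⟩
    exact this.finite_zpowers
  have tz : a * φ ∈ Subgroup.zpowers (a * φ) := Subgroup.mem_zpowers _
  let M : Set G := {x | ∃ d ∈ D, ∃ z ∈ Subgroup.zpowers (a * φ), ∃ u ∈ ({1, a} : Set G),
    ∃ v ∈ ({1, E0} : Set G), x = d * z * u * v}
  have hM : M.Finite := by
    have hu : ({1, a} : Set G).Finite := by simp
    have hv : ({1, E0} : Set G).Finite := by simp
    refine ((((hfin.image2 (fun x y => x * y) hZ).image2 (fun x y => x * y) hu).image2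
      (fun x y => x * y) hv)).subset ?_
    rintro x ⟨d, hd, z, hz, u, hu, v, hv, rfl⟩
    exact ⟨d * z * u, ⟨d * z, ⟨d, hd, z, hz, rfl⟩, u, hu, rfl⟩, v, hv, rfl⟩
  -- right multiplication by `φ` of the part without `E0`
  have st1 : ∀ d ∈ D, ∀ z ∈ Subgroup.zpowers (a * φ), ∀ u ∈ ({1, a} : Set G),
      ∃ z' ∈ Subgroup.zpowers (a * φ), ∃ u' ∈ ({1, a} : Set G), d * z * u * φ = d * z' * u' := by
    intro d _ z hz u hu
    rcases hu with rfl | rfl
    · refine ⟨z * (a * φ)⁻¹, Subgroup.mul_mem _ hz (Subgroup.inv_mem _ tz), a, by simp, ?_⟩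
      rw [mul_inv_rev, iφ, ia]
      have : d * (z * (φ * a)) * a = d * z * φ * (a * a) := by simp only [mul_assoc]
      rw [this, ha]
      simp only [mul_one]
    · exact ⟨z * (u * φ), Subgroup.mul_mem _ hz tz, 1, by simp, by
        rw [mul_one]; simp only [mul_assoc]⟩
  have st2 : ∀ d ∈ D, ∀ z ∈ Subgroup.zpowers (a * φ), ∀ u ∈ ({1, a} : Set G),
      ∃ u' ∈ ({1, a} : Set G), d * z * u * a = d * z * u' := by
    intro d _ z hz u hu
    rcases hu with rfl | rfl
    · exact ⟨a, by simp, by rw [mul_one]⟩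
    · exact ⟨1, by simp, by rw [mul_assoc (d * z), ha]⟩
  have nu : ∀ u ∈ ({1, a} : Set G), u ∈ Subgroup.normalizer (D : Set G) := by
    rintro u (rfl | rfl)
    · exact Subgroup.one_mem _
    · exact na
  have hstep : ∀ s ∈ ({a, φ, E0} : Set G), ∀ x ∈ M, x * s ∈ M := by
    rintro s hs x ⟨d, hd, z, hz, u, hu, v, hv, rfl⟩
    rcases hs with rfl | rfl | rfl
    · obtain ⟨u', hu', he⟩ := st2 d hd z hz u hu
      rcases hv with rfl | hv
      · exact ⟨d, hd, z, hz, u', hu', 1, by simp, by rw [mul_one, mul_one, he]⟩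
      · have hv' : v = E0 := hv
        subst hv'
        have hq : z * u' ∈ Subgroup.normalizer (D : Set G) :=
          Subgroup.mul_mem _ (nz z hz) (nu u' hu')
        have hconj : (z * u') * (E1 * v) * (z * u')⁻¹ ∈ D :=
          (Subgroup.mem_normalizer_iff.1 hq _).1 m10
        refine ⟨d * ((z * u') * (E1 * v) * (z * u')⁻¹), D.mul_mem hd hconj, z, hz, u', hu', v,
          by simp, ?_⟩
        have e1 : d * ((z * u') * (E1 * v) * (z * u')⁻¹) * z * u' * v =
            d * (z * u') * E1 * (v * v) := by group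
        rw [e1, h0, mul_one, ← ha0]
        have e2 : d * (z * u') * (s * v * s) = (d * z * u') * s * v * s := by
          simp only [mul_assoc]
        rw [e2, ← he]
        have e3 : d * z * u * s * s * v * s = d * z * u * (s * s) * v * s := by
          simp only [mul_assoc]
        rw [e3, ha, mul_one]
    · obtain ⟨z', hz', u', hu', he⟩ := st1 d hd z hz u hu
      rcases hv with rfl | hv
      · exact ⟨d, hd, z', hz', u', hu', 1, by simp, by rw [mul_one, mul_one, he]⟩
      · have hv' : v = E0 := hv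
        subst hv'
        refine ⟨d, hd, z', hz', u', hu', v, by simp, ?_⟩
        have hcm : v * s = s * v := by
          have h5 : s * (s * v * s) = s * v := by rw [hp0]
          have h6 : s * (s * v * s) = s * s * v * s := by simp only [mul_assoc]
          rw [h6, hφ, one_mul] at h5
          exact h5
        rw [mul_assoc, hcm, ← mul_assoc, he]
    · rcases hv with rfl | hv
      · exact ⟨d, hd, z, hz, u, hu, s, by simp, by rw [mul_one]⟩
      · have hv' : v = s := hv
        subst hv'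
        exact ⟨d, hd, z, hz, u, hu, 1, by simp, by rw [mul_assoc, h0]⟩
  refine hM.subset ?_
  intro x hx
  refine Subgroup.closure_induction_right (s := ({a, φ, E0} : Set G)) (p := fun x _ => x ∈ M)
    ?_ ?_ ?_ hx
  · exact ⟨1, D.one_mem, 1, Subgroup.one_mem _, 1, by simp, 1, by simp, by simp⟩
  · intro x _ s hs hx
    exact hstep s hs x hx
  · intro x _ s hs hx
    have : s⁻¹ = s := by
      rcases hs with rfl | rfl | rfl
      · exact ia
      · exact iφ
      · exact i0
    rw [this]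
    exact hstep s hs x hx

end

end Pool.Agent.W380.Fol
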