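import Mathlib

/-!
# An energy estimate for products of commuting averaging operators
-/

set_option autoImplicit false

namespace Pool.Agent.W380.Fol

variable {A V : Type*} [Group A] [NormedAddCommGroup V] [InnerProductSpace ℝ V]

/-- the averaging operator -/
noncomputable def avg (ρ : A →* Module.End ℝ V) (s : A) : Module.End ℝ V := (1 / 2 : ℝ) • (1 + ρ s)

theorem avg_apply (ρ : A →* Module.End ℝ V) (s : A) (v : V) :
    avg ρ s v = (1 / 2 : ℝ) • (v + ρ s v) := by
  simp [avg]

theorem avg_sub (ρ : A →* Module.End ℝ V) (s : A) (v : V) :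
    v - avg ρ s v = (1 / 2 : ℝ) • (v - ρ s v) := by
  rw [avg_apply]
  module

theorem avg_sq (ρ : A →* Module.End ℝ V) (hρ : ∀ a v, ‖ρ a v‖ = ‖v‖) (s : A) (v : V) :
    ‖v‖ ^ 2 - ‖avg ρ s v‖ ^ 2 = ‖v - avg ρ s v‖ ^ 2 := by
  rw [avg_sub, avg_apply, norm_smul, norm_smul]
  have h := parallelogram_law_with_norm ℝ v (ρ s v)
  rw [hρ] at h
  have : ‖(1 / 2 : ℝ)‖ = 1 / 2 := by norm_num
  rw [this]
  nlinarith

theorem le_of_sq_le_sq' {a b : ℝ} (h : a ^ 2 ≤ b ^ 2) (hb : 0 ≤ b) : a ≤ b :=
  le_trans (le_abs_self a) (abs_le_of_sq_le_sq h hb)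

theorem avg_le (ρ : A →* Module.End ℝ V) (hρ : ∀ a v, ‖ρ a v‖ = ‖v‖) (s : A) (v : V) :
    ‖avg ρ s v‖ ≤ ‖v‖ := by
  have h := avg_sq ρ hρ s v
  have h1 : ‖avg ρ s v‖ ^ 2 ≤ ‖v‖ ^ 2 := by nlinarith [sq_nonneg ‖v - avg ρ s v‖]
  exact le_of_sq_le_sq' h1 (norm_nonneg _)

/-- a product of averaging operators -/
noncomputable def prodAvg (ρ : A →* Module.End ℝ V) (L : List A) : Module.End ℝ V :=
  (L.map (avg ρ)).prod

theorem prodAvg_cons (ρ : A →* Module.End ℝ V) (s : A) (L : List A) (v : V) :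
    prodAvg ρ (s :: L) v = avg ρ s (prodAvg ρ L v) := by
  simp [prodAvg]

theorem prodAvg_nil (ρ : A →* Module.End ℝ V) (v : V) : prodAvg ρ [] v = v := by
  simp [prodAvg]

/-- operators that are products of contractions are contractions -/
theorem prod_le {T : List (Module.End ℝ V)} (hT : ∀ t ∈ T, ∀ v, ‖t v‖ ≤ ‖v‖) (v : V) :
    ‖T.prod v‖ ≤ ‖v‖ := by
  induction T with
  | nil => simp
  | cons t T ih =>
    rw [List.prod_cons, Module.End.mul_apply]
    exact (hT t List.mem_cons_self _).trans (ih fun t' ht' => hT t' (List.mem_cons_of_mem _ ht'))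

theorem prodAvg_le (ρ : A →* Module.End ℝ V) (hρ : ∀ a v, ‖ρ a v‖ = ‖v‖) (L : List A) (v : V) :
    ‖prodAvg ρ L v‖ ≤ ‖v‖ := by
  refine prod_le (fun t ht v => ?_) v
  obtain ⟨s, _, rfl⟩ := List.mem_map.1 ht
  exact avg_le ρ hρ s v

theorem site_lemma (ρ : A →* Module.End ℝ V) (hρ : ∀ a v, ‖ρ a v‖ = ‖v‖) (L : List A) (y : V) :
    ∃ D : ℝ, 0 ≤ D ∧ D ^ 2 ≤ L.length * (‖y‖ ^ 2 - ‖prodAvg ρ L y‖ ^ 2) ∧
      ∀ s ∈ L, ‖prodAvg ρ L y - ρ s (prodAvg ρ L y)‖ ≤ 2 * D := by
  induction L with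
  | nil => exact ⟨0, le_rfl, by simp, by simp⟩
  | cons s L ih =>
    obtain ⟨D, hD, hD2, hs⟩ := ih
    set z := prodAvg ρ L y with hz
    rw [prodAvg_cons, ← hz]
    refine ⟨D + ‖z - avg ρ s z‖, by positivity, ?_, ?_⟩
    · have h1 := avg_sq ρ hρ s z
      set d := ‖z - avg ρ s z‖ with hd
      have hd0 : 0 ≤ d := norm_nonneg _
      set E := ‖y‖ ^ 2 - ‖z‖ ^ 2 with hE
      set n : ℝ := (L.length : ℝ) with hn
      have hn0 : 0 ≤ n := Nat.cast_nonneg _
      have hE0 : 0 ≤ E := by
        have h2 := prodAvg_le ρ hρ L y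
        rw [← hz] at h2
        have : ‖z‖ ^ 2 ≤ ‖y‖ ^ 2 := by gcongr
        linarith
      have e1 : ‖y‖ ^ 2 - ‖avg ρ s z‖ ^ 2 = E + d ^ 2 := by rw [← h1, hE]; ring
      rw [e1]
      have h3 : 2 * D * d ≤ E + n * d ^ 2 := by
        have h4 : (2 * D * d) ^ 2 ≤ (E + n * d ^ 2) ^ 2 := by
          have : (2 * D * d) ^ 2 = 4 * D ^ 2 * d ^ 2 := by ring
          rw [this]
          have h5 : 4 * D ^ 2 * d ^ 2 ≤ 4 * (n * E) * d ^ 2 := by gcongr
          nlinarith [sq_nonneg (E - n * d ^ 2)]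
        exact le_of_sq_le_sq' h4 (by positivity)
      have : ((s :: L).length : ℝ) = n + 1 := by simp [hn]
      rw [this]
      nlinarith
    · intro t ht
      rcases List.mem_cons.1 ht with rfl | ht
      · have e : avg ρ t z - ρ t (avg ρ t z) =
            (1 / 2 : ℝ) • (z - ρ t z) + (1 / 2 : ℝ) • (ρ t (z - ρ t z)) := by
          rw [avg_apply, map_smul, map_add, map_sub]
          module
        rw [e]
        have h6 : ‖(1 / 2 : ℝ) • (z - ρ t z) + (1 / 2 : ℝ) • (ρ t (z - ρ t z))‖ ≤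
            ‖z - ρ t z‖ := by
          refine (norm_add_le _ _).trans ?_
          rw [norm_smul, norm_smul, hρ]
          have : ‖(1 / 2 : ℝ)‖ = 1 / 2 := by norm_num
          rw [this]
          linarith
        refine h6.trans ?_
        rw [avg_sub, norm_smul]
        have : ‖(1 / 2 : ℝ)‖ = 1 / 2 := by norm_num
        rw [this]
        linarith
      · have h7 := hs t ht
        have e : avg ρ s z - ρ t (avg ρ s z) =
            (z - ρ t z) - (z - avg ρ s z) + ρ t (z - avg ρ s z) := by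
          rw [map_sub]
          abel
        rw [e]
        have h8 : ‖(z - ρ t z) - (z - avg ρ s z) + ρ t (z - avg ρ s z)‖ ≤
            ‖z - ρ t z‖ + ‖z - avg ρ s z‖ + ‖z - avg ρ s z‖ := by
          refine (norm_add_le _ _).trans ?_
          rw [hρ]
          gcongr
          exact norm_sub_le _ _
        linarith

theorem commute_avg (ρ : A →* Module.End ℝ V) {s t : A} (h : Commute s t) :
    Commute (avg ρ s) (ρ t) := by
  unfold avg
  refine Commute.smul_left ?_ _
  refine (Commute.one_left _).add_left ?_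
  exact h.map ρ

theorem commute_avg_avg (ρ : A →* Module.End ℝ V) {s t : A} (h : Commute s t) :
    Commute (avg ρ s) (avg ρ t) := by
  have h1 := commute_avg ρ h
  unfold avg at h1 ⊢
  refine Commute.smul_right ?_ _
  exact (Commute.one_right _).add_right h1

theorem commute_prodAvg (ρ : A →* Module.End ℝ V) {L : List A} {t : A}
    (h : ∀ s ∈ L, Commute s t) : Commute (prodAvg ρ L) (ρ t) := by
  refine Commute.list_prod_left _ _ fun x hx => ?_
  obtain ⟨s, hs, rfl⟩ := List.mem_map.1 hx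
  exact commute_avg ρ (h s hs)

variable {ι : Type*}

theorem sites_lemma [DecidableEq ι] (ρ : A →* Module.End ℝ V) (hρ : ∀ a v, ‖ρ a v‖ = ‖v‖) (S : ι → List A)
    (hS : ∀ u v, u ≠ v → ∀ s ∈ S u, ∀ t ∈ S v, Commute s t) (U : List ι) (hU : U.Nodup) (f : V) :
    ∃ q : ι → ℝ, (∀ u, 0 ≤ q u) ∧
      ∑ u ∈ U.toFinset, q u ≤ ‖f‖ ^ 2 - ‖(U.map fun u => prodAvg ρ (S u)).prod f‖ ^ 2 ∧
      ∀ u ∈ U, ∀ s ∈ S u, ‖(U.map fun u => prodAvg ρ (S u)).prod f -
        ρ s ((U.map fun u => prodAvg ρ (S u)).prod f)‖ ^ 2 ≤ 4 * (S u).length * q u := by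
  induction U with
  | nil => exact ⟨fun _ => 0, fun _ => le_rfl, by simp, by simp⟩
  | cons u U ih =>
    obtain ⟨q, hq, hsum, hen⟩ := ih (List.nodup_cons.1 hU).2
    have hu : u ∉ U := (List.nodup_cons.1 hU).1
    rw [List.map_cons, List.prod_cons, Module.End.mul_apply]
    set y := (U.map fun u => prodAvg ρ (S u)).prod f with hy
    obtain ⟨D, hD, hD2, hs⟩ := site_lemma ρ hρ (S u) y
    have hE0 : 0 ≤ ‖y‖ ^ 2 - ‖prodAvg ρ (S u) y‖ ^ 2 := by
      have h2 := prodAvg_le ρ hρ (S u) y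
      have : ‖prodAvg ρ (S u) y‖ ^ 2 ≤ ‖y‖ ^ 2 := by gcongr
      linarith
    refine ⟨Function.update q u (‖y‖ ^ 2 - ‖prodAvg ρ (S u) y‖ ^ 2), ?_, ?_, ?_⟩
    · intro v
      by_cases hv : v = u
      · rw [hv, Function.update_self]
        exact hE0
      · rw [Function.update_of_ne hv]
        exact hq v
    · rw [List.toFinset_cons, Finset.sum_insert (by simpa using hu), Function.update_self]
      have : ∑ v ∈ U.toFinset, Function.update q u (‖y‖ ^ 2 - ‖prodAvg ρ (S u) y‖ ^ 2) v =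
          ∑ v ∈ U.toFinset, q v := by
        refine Finset.sum_congr rfl fun v hv => ?_
        rw [Function.update_of_ne]
        rintro rfl
        exact hu (List.mem_toFinset.1 hv)
      rw [this]
      linarith
    · intro v hv s hsv
      by_cases hvu : v = u
      · subst hvu
        rw [Function.update_self]
        have h1 := hs s hsv
        have h2 : ‖prodAvg ρ (S v) y - ρ s (prodAvg ρ (S v) y)‖ ^ 2 ≤ (2 * D) ^ 2 := by gcongr
        nlinarith
      · rw [Function.update_of_ne hvu]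
        have hvU : v ∈ U := (List.mem_cons.1 hv).resolve_left hvu
        have hc : Commute (prodAvg ρ (S u)) (ρ s) :=
          commute_prodAvg ρ fun t ht => hS u v (Ne.symm hvu) t ht s hsv
        have e : prodAvg ρ (S u) y - ρ s (prodAvg ρ (S u) y) = prodAvg ρ (S u) (y - ρ s y) := by
          rw [map_sub]
          congr 1
          rw [← Module.End.mul_apply, ← hc.eq, Module.End.mul_apply]
        rw [e]
        refine le_trans ?_ (hen v hvU s hsv)
        gcongr
        exact prodAvg_le ρ hρ _ _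

/-- reordering a double product -/
theorem prod_mul_prod_list {M κ : Type*} [Monoid M] (J : List κ) (x y : κ → M)
    (h : ∀ i j, Commute (x i) (y j)) :
    (J.map x).prod * (J.map y).prod = (J.map fun j => x j * y j).prod := by
  induction J with
  | nil => simp
  | cons j J ih =>
    simp only [List.map_cons, List.prod_cons]
    rw [← ih]
    have hc : Commute (J.map x).prod (y j) := by
      refine Commute.list_prod_left _ _ fun a ha => ?_
      obtain ⟨i, _, rfl⟩ := List.mem_map.1 ha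
      exact h i j
    calc x j * (J.map x).prod * (y j * (J.map y).prod)
        = x j * ((J.map x).prod * y j) * (J.map y).prod := by simp only [mul_assoc]
      _ = x j * (y j * (J.map x).prod) * (J.map y).prod := by rw [hc.eq]
      _ = x j * y j * ((J.map x).prod * (J.map y).prod) := by simp only [mul_assoc]

theorem prod_prod_comm {M κ : Type*} [Monoid M] (a : ι → κ → M)
    (h : ∀ u v, u ≠ v → ∀ i j, Commute (a u i) (a v j)) (U : List ι) (hU : U.Nodup)
    (J : List κ) :
    (U.map fun u => (J.map (a u)).prod).prod = (J.map fun j => (U.map fun u => a u j).prod).prod := by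
  induction U with
  | nil => simp
  | cons u U ih =>
    simp only [List.map_cons, List.prod_cons]
    rw [ih (List.nodup_cons.1 hU).2]
    refine prod_mul_prod_list J (a u) (fun j => (U.map fun u => a u j).prod) fun i j => ?_
    refine Commute.list_prod_right _ _ fun b hb => ?_
    obtain ⟨v, hv, rfl⟩ := List.mem_map.1 hb
    exact h u v (fun e => (List.nodup_cons.1 hU).1 (e ▸ hv)) i j

theorem close_of_patterns (ρ : A →* Module.End ℝ V) (s : ι → A) (U : List ι) (f : V) (δ : ℝ)
    (y : A) (h : ∀ p : List ι, p.Sublist U → ‖ρ (y * (p.map s).prod) f - f‖ ≤ δ) :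
    ‖ρ y ((U.map fun u => avg ρ (s u)).prod f) - f‖ ≤ δ := by
  induction U generalizing y with
  | nil => simpa using h [] (List.Sublist.refl _)
  | cons u U ih =>
    rw [List.map_cons, List.prod_cons, Module.End.mul_apply, avg_apply, map_smul, map_add]
    set g := (U.map fun u => avg ρ (s u)).prod f
    have h1 : ‖ρ y g - f‖ ≤ δ := ih y fun p hp => h p (hp.trans (List.sublist_cons_self _ _))
    have h2 : ‖ρ (y * s u) g - f‖ ≤ δ := ih (y * s u) fun p hp => by
      have := h (u :: p) (List.Sublist.cons_cons u hp)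
      rwa [List.map_cons, List.prod_cons, ← mul_assoc] at this
    have e : (1 / 2 : ℝ) • (ρ y g + ρ y (ρ (s u) g)) - f =
        (1 / 2 : ℝ) • (ρ y g - f) + (1 / 2 : ℝ) • (ρ (y * s u) g - f) := by
      rw [map_mul, Module.End.mul_apply]
      module
    rw [e]
    refine (norm_add_le _ _).trans ?_
    rw [norm_smul, norm_smul]
    have : ‖(1 / 2 : ℝ)‖ = 1 / 2 := by norm_num
    rw [this]
    linarith

theorem close_prod {T : List (Module.End ℝ V)} (hT : ∀ t ∈ T, ∀ v, ‖t v‖ ≤ ‖v‖) (f : V) (δ : ℝ)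
    (h : ∀ t ∈ T, ‖t f - f‖ ≤ δ) : ‖T.prod f - f‖ ≤ T.length * δ := by
  induction T with
  | nil => simp
  | cons t T ih =>
    rw [List.prod_cons, Module.End.mul_apply]
    have h1 := ih (fun t' ht' => hT t' (List.mem_cons_of_mem _ ht'))
      (fun t' ht' => h t' (List.mem_cons_of_mem _ ht'))
    have h2 := h t List.mem_cons_self
    have h3 : ‖t (T.prod f) - t f‖ ≤ ‖T.prod f - f‖ := by
      rw [← map_sub]
      exact hT t List.mem_cons_self _
    have : t (T.prod f) - f = (t (T.prod f) - t f) + (t f - f) := by abel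
    rw [this]
    refine (norm_add_le _ _).trans ?_
    rw [List.length_cons]
    push_cast
    linarith

/-- `y` is a product of at most `n` elements of `L` and their inverses -/
def InBall (L : List A) (n : ℕ) (y : A) : Prop :=
  ∃ l : List A, l.length ≤ n ∧ (∀ x ∈ l, x ∈ L ∨ x⁻¹ ∈ L) ∧ l.prod = y

theorem ball_close (ρ : A →* Module.End ℝ V) (hρ : ∀ a v, ‖ρ a v‖ = ‖v‖) (L : List A) (g : V)
    (ε : ℝ) (hε : 0 ≤ ε) (h : ∀ s ∈ L, ‖g - ρ s g‖ ≤ ε) (n : ℕ) (y : A) (hy : InBall L n y) :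
    ‖ρ y g - g‖ ≤ n * ε := by
  obtain ⟨l, hl, hx, rfl⟩ := hy
  have key : ∀ l : List A, (∀ x ∈ l, x ∈ L ∨ x⁻¹ ∈ L) → ‖ρ l.prod g - g‖ ≤ l.length * ε := by
    intro l hx
    induction l with
    | nil => simp
    | cons x l ih =>
      have h1 := ih fun x' hx' => hx x' (List.mem_cons_of_mem _ hx')
      have h2 : ‖ρ x g - g‖ ≤ ε := by
        rcases hx x List.mem_cons_self with h3 | h3
        · rw [norm_sub_rev]
          exact h x h3
        · have h4 := h _ h3
          have : ρ x g - g = ρ x (g - ρ x⁻¹ g) := by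
            rw [map_sub, ← Module.End.mul_apply, ← map_mul, mul_inv_cancel, map_one]
            rfl
          rw [this, hρ]
          exact h4
      rw [List.prod_cons, map_mul, Module.End.mul_apply]
      have : ρ x (ρ l.prod g) - g = ρ x (ρ l.prod g - g) + (ρ x g - g) := by
        rw [map_sub]; abel
      rw [this]
      refine (norm_add_le _ _).trans ?_
      rw [hρ, List.length_cons]
      push_cast
      linarith
  refine (key l hx).trans ?_
  gcongr

/-- the energy estimate -/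
theorem energy [DecidableEq ι] {m : ℕ} (ρ : A →* Module.End ℝ V) (hρ : ∀ a v, ‖ρ a v‖ = ‖v‖) (σ : ι → Fin m → A)
    (hσ : ∀ u v, u ≠ v → ∀ i j, Commute (σ u i) (σ v j)) (U : List ι) (hU : U.Nodup) (f : V)
    (hf : ‖f‖ = 1) (δ : ℝ)
    (hpat : ∀ i, ∀ p : List ι, p.Sublist U → ‖ρ (p.map fun u => σ u i).prod f - f‖ ≤ δ) (n : ℕ)
    (y : ι → A) (hy : ∀ u, InBall (List.ofFn (σ u)) n (y u)) :
    ∑ u ∈ U.toFinset, ‖ρ (y u) f - f‖ ^ 2 ≤ 8 * n ^ 2 * m + 8 * m ^ 2 * δ ^ 2 * U.length := by
  obtain ⟨q, hq, hsum, hen⟩ := sites_lemma ρ hρ (fun u => List.ofFn (σ u)) (by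
    intro u v huv s hs t ht
    obtain ⟨i, rfl⟩ := (List.mem_ofFn' (σ u) s).1 hs
    obtain ⟨j, rfl⟩ := (List.mem_ofFn' (σ v) t).1 ht
    exact hσ u v huv i j) U hU f
  set g := (U.map fun u => prodAvg ρ (List.ofFn (σ u))).prod f with hg
  have hgf : ‖g - f‖ ≤ m * δ := by
    have e1 : (U.map fun u => prodAvg ρ (List.ofFn (σ u))).prod =
        ((List.finRange m).map fun i => (U.map fun u => avg ρ (σ u i)).prod).prod := by
      rw [← prod_prod_comm (fun u i => avg ρ (σ u i))
        (fun u v huv i j => commute_avg_avg ρ (hσ u v huv i j)) U hU (List.finRange m)]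
      congr 1
      refine List.map_congr_left fun u _ => ?_
      rw [prodAvg, List.ofFn_eq_map, List.map_map]
      rfl
    rw [hg, e1]
    have h1 := close_prod (T := (List.finRange m).map fun i => (U.map fun u => avg ρ (σ u i)).prod)
      (by
        intro t ht v
        obtain ⟨i, _, rfl⟩ := List.mem_map.1 ht
        refine prod_le (fun t' ht' v' => ?_) v
        obtain ⟨u, _, rfl⟩ := List.mem_map.1 ht'
        exact avg_le ρ hρ _ _) f δ (by
        intro t ht
        obtain ⟨i, _, rfl⟩ := List.mem_map.1 ht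
        have := close_of_patterns ρ (fun u => σ u i) U f δ 1 (by
          intro p hp
          rw [one_mul]
          exact hpat i p hp)
        rwa [map_one, Module.End.one_apply] at this)
    rw [List.length_map, List.length_finRange] at h1
    exact h1
  have hsum1 : ∑ u ∈ U.toFinset, q u ≤ 1 := by
    refine hsum.trans ?_
    rw [hf]
    nlinarith [sq_nonneg ‖g‖]
  have hone : ∀ u ∈ U.toFinset, ‖ρ (y u) f - f‖ ^ 2 ≤ 8 * n ^ 2 * m * q u + 8 * m ^ 2 * δ ^ 2 := by
    intro u hu
    have huU := List.mem_toFinset.1 hu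
    have h2 : ∀ s ∈ List.ofFn (σ u), ‖g - ρ s g‖ ≤ Real.sqrt (4 * m * q u) := by
      intro s hs
      refine Real.le_sqrt_of_sq_le ?_
      have := hen u huU s hs
      rwa [List.length_ofFn] at this
    have h3 := ball_close ρ hρ _ g _ (Real.sqrt_nonneg _) h2 n (y u) (hy u)
    have e : ρ (y u) f - f = ρ (y u) (f - g) + (ρ (y u) g - g) + (g - f) := by
      rw [map_sub]; abel
    have h4 : ‖ρ (y u) f - f‖ ≤ 2 * (m * δ) + n * Real.sqrt (4 * m * q u) := by
      rw [e]
      refine (norm_add_le _ _).trans ?_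
      have h5 : ‖ρ (y u) (f - g) + (ρ (y u) g - g)‖ ≤ m * δ + n * Real.sqrt (4 * m * q u) := by
        refine (norm_add_le _ _).trans ?_
        rw [hρ, norm_sub_rev]
        linarith
      linarith
    have h6 : Real.sqrt (4 * m * q u) ^ 2 = 4 * m * q u :=
      Real.sq_sqrt (by have := hq u; positivity)
    have h7 : ‖ρ (y u) f - f‖ ^ 2 ≤ (2 * (m * δ) + n * Real.sqrt (4 * m * q u)) ^ 2 := by
      gcongr
    refine h7.trans ?_
    have h8 : (2 * (m * δ) + n * Real.sqrt (4 * m * q u)) ^ 2 ≤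
        2 * (2 * (m * δ)) ^ 2 + 2 * (n * Real.sqrt (4 * m * q u)) ^ 2 := by
      nlinarith [sq_nonneg (2 * (m * δ) - n * Real.sqrt (4 * m * q u))]
    refine h8.trans ?_
    rw [mul_pow (n : ℝ), h6]
    nlinarith
  refine (Finset.sum_le_sum hone).trans ?_
  rw [Finset.sum_add_distrib, ← Finset.mul_sum, Finset.sum_const, nsmul_eq_mul,
    List.toFinset_card_of_nodup hU]
  have : (0 : ℝ) ≤ 8 * n ^ 2 * m := by positivity
  nlinarith

end Pool.Agent.W380.Fol
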