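import Mathlib

/-!
# Subadditivity of entropy for fibre counts
-/

set_option autoImplicit false

namespace Pool.Agent.W380.Fol

open Finset Classical

variable {α : Type*}

/-- number of elements of `F` related to `z` -/
noncomputable def cnt (F : Finset α) (P : α → α → Prop) (z : α) : ℕ := (F.filter fun x => P z x).card

theorem cnt_pos {F : Finset α} {P : α → α → Prop} (hP : ∀ z, P z z) {z : α} (hz : z ∈ F) :
    0 < cnt F P z :=
  Finset.card_pos.2 ⟨z, Finset.mem_filter.2 ⟨hz, hP z⟩⟩

theorem cnt_congr {F : Finset α} {Q : α → α → Prop} (hQ : Equivalence Q) {z x : α} (h : Q z x) :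
    cnt F Q z = cnt F Q x := by
  unfold cnt
  congr 1
  ext y
  simp only [Finset.mem_filter]
  constructor
  · rintro ⟨hy, hzy⟩
    exact ⟨hy, hQ.trans (hQ.symm h) hzy⟩
  · rintro ⟨hy, hxy⟩
    exact ⟨hy, hQ.trans h hxy⟩

/-- the counting inequality -/
theorem sum_ratio_le (F : Finset α) {P K Q : α → α → Prop} (hP : Equivalence P)
    (hK : Equivalence K) (hQ : Equivalence Q) (hPQ : ∀ x y, P x y → Q x y)
    (hKQ : ∀ x y, K x y → Q x y) (hPK : ∀ x y, P x y → K x y → x = y) :
    ∑ z ∈ F, ((cnt F P z : ℝ) * cnt F K z / cnt F Q z) ≤ F.card := by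
  have h1 : ∀ z ∈ F, ((cnt F P z : ℝ) * cnt F K z / cnt F Q z) =
      ∑ x ∈ F, ∑ y ∈ F, (if P z x ∧ K z y then (1 : ℝ) / cnt F Q z else 0) := by
    intro z _
    have : ∀ x ∈ F, ∑ y ∈ F, (if P z x ∧ K z y then (1 : ℝ) / cnt F Q z else 0) =
        if P z x then (cnt F K z : ℝ) / cnt F Q z else 0 := by
      intro x _
      by_cases hx : P z x
      · simp only [hx, true_and, if_true]
        rw [← Finset.sum_filter, Finset.sum_const, nsmul_eq_mul]
        unfold cnt
        ring
      · simp [hx]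
    rw [Finset.sum_congr rfl this, ← Finset.sum_filter, Finset.sum_const, nsmul_eq_mul]
    unfold cnt
    ring
  rw [Finset.sum_congr rfl h1, Finset.sum_comm]
  have h2 : ∀ x ∈ F, ∑ z ∈ F, ∑ y ∈ F, (if P z x ∧ K z y then (1 : ℝ) / cnt F Q z else 0) ≤ 1 := by
    intro x hx
    rw [Finset.sum_comm]
    have h3 : ∀ y ∈ F, ∑ z ∈ F, (if P z x ∧ K z y then (1 : ℝ) / cnt F Q z else 0) ≤
        if Q x y then (1 : ℝ) / cnt F Q x else 0 := by
      intro y hy
      by_cases hex : ∃ z ∈ F, P z x ∧ K z y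
      · obtain ⟨z, hz, hzx, hzy⟩ := hex
        have hxy : Q x y := hQ.trans (hQ.symm (hPQ _ _ hzx)) (hKQ _ _ hzy)
        rw [if_pos hxy, Finset.sum_eq_single z]
        · rw [if_pos ⟨hzx, hzy⟩, cnt_congr hQ (hPQ _ _ hzx)]
        · intro z' _ hne
          rw [if_neg]
          rintro ⟨h4, h5⟩
          exact hne (hPK _ _ (hP.trans h4 (hP.symm hzx)) (hK.trans h5 (hK.symm hzy)))
        · intro h
          exact absurd hz h
      · push Not at hex
        rw [Finset.sum_eq_zero]
        · split_ifs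
          · positivity
          · exact le_rfl
        · intro z hz
          rw [if_neg]
          rintro ⟨h4, h5⟩
          exact hex z hz h4 h5
    refine (Finset.sum_le_sum h3).trans ?_
    rw [← Finset.sum_filter, Finset.sum_const, nsmul_eq_mul]
    have hpos : (0 : ℝ) < cnt F Q x := by exact_mod_cast cnt_pos hQ.refl hx
    have : ((F.filter fun a => Q x a).card : ℝ) = cnt F Q x := rfl
    rw [this]
    rw [mul_one_div_cancel hpos.ne']
  calc ∑ x ∈ F, ∑ z ∈ F, ∑ y ∈ F, (if P z x ∧ K z y then (1 : ℝ) / cnt F Q z else 0)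
      ≤ ∑ x ∈ F, (1 : ℝ) := Finset.sum_le_sum h2
    _ = F.card := by simp

/-- subadditivity of entropy -/
theorem sum_log_le (F : Finset α) {P K Q : α → α → Prop} (hP : Equivalence P)
    (hK : Equivalence K) (hQ : Equivalence Q) (hPQ : ∀ x y, P x y → Q x y)
    (hKQ : ∀ x y, K x y → Q x y) (hPK : ∀ x y, P x y → K x y → x = y) :
    ∑ z ∈ F, Real.log (cnt F P z) + ∑ z ∈ F, Real.log (cnt F K z) ≤
      ∑ z ∈ F, Real.log (cnt F Q z) := by
  have h := sum_ratio_le F hP hK hQ hPQ hKQ hPK
  have h1 : ∀ z ∈ F, Real.log (cnt F P z) + Real.log (cnt F K z) - Real.log (cnt F Q z) ≤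
      ((cnt F P z : ℝ) * cnt F K z / cnt F Q z) - 1 := by
    intro z hz
    have hp : (0 : ℝ) < cnt F P z := by exact_mod_cast cnt_pos hP.refl hz
    have hk : (0 : ℝ) < cnt F K z := by exact_mod_cast cnt_pos hK.refl hz
    have hq : (0 : ℝ) < cnt F Q z := by exact_mod_cast cnt_pos hQ.refl hz
    rw [← Real.log_mul hp.ne' hk.ne', ← Real.log_div (mul_pos hp hk).ne' hq.ne']
    exact Real.log_le_sub_one_of_pos (by positivity)
  have h2 := Finset.sum_le_sum h1
  rw [Finset.sum_sub_distrib, Finset.sum_sub_distrib, Finset.sum_add_distrib] at h2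
  simp only [Finset.sum_const, nsmul_eq_mul, mul_one] at h2
  linarith

/-- iterated form -/
theorem sum_sum_log_le {ι : Type*} [Fintype ι] [DecidableEq ι] (F : Finset α) (R : ι → α → α → Prop)
    (Q : Finset ι → α → α → Prop) (hR : ∀ u, Equivalence (R u)) (hQ : ∀ U, Equivalence (Q U))
    (h1 : ∀ U u x y, u ∉ U → R u x y → Q (insert u U) x y)
    (h2 : ∀ U u x y, u ∉ U → Q U x y → Q (insert u U) x y)
    (h3 : ∀ U u x y, u ∉ U → R u x y → Q U x y → x = y) :
    ∑ u, ∑ z ∈ F, Real.log (cnt F (R u) z) ≤ F.card * Real.log F.card := by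
  have key : ∀ U : Finset ι, ∑ u ∈ U, ∑ z ∈ F, Real.log (cnt F (R u) z) ≤
      ∑ z ∈ F, Real.log (cnt F (Q U) z) := by
    intro U
    induction U using Finset.induction_on with
    | empty =>
      rw [Finset.sum_empty]
      refine Finset.sum_nonneg fun z hz => Real.log_nonneg ?_
      exact_mod_cast cnt_pos (hQ _).refl hz
    | insert u U hu ih =>
      rw [Finset.sum_insert hu]
      have := sum_log_le F (hR u) (hQ U) (hQ (insert u U)) (fun x y => h1 U u x y hu)
        (fun x y => h2 U u x y hu) (fun x y => h3 U u x y hu)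
      linarith
  refine (key Finset.univ).trans ?_
  rw [← nsmul_eq_mul, ← Finset.sum_const]
  refine Finset.sum_le_sum fun z hz => ?_
  refine Real.log_le_log (by exact_mod_cast cnt_pos (hQ _).refl hz) ?_
  exact_mod_cast Finset.card_le_card (Finset.filter_subset _ _)

end Pool.Agent.W380.Fol
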