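import Pool.Agent.W380.Fol.Bot

/-!
# The bottom groups
-/

set_option autoImplicit false

namespace Pool.Agent.W380.Fol

section
variable {G : Type*} [Group G] {a φ ε : G}

theorem half_turn (ha : a * a = 1) (hφ : φ * φ = 1) (h4 : (a * φ) ^ 4 = 1) :
    a * φ * a * φ = φ * a * φ * a := by
  have ia : a⁻¹ = a := inv_eq_of_mul_eq_one_left ha
  have iφ : φ⁻¹ = φ := inv_eq_of_mul_eq_one_left hφ
  have h1 : (a * φ * a * φ) * (a * φ * a * φ) = 1 := by
    rw [← h4]
    simp only [pow_succ, pow_zero, one_mul, mul_assoc]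
  have h2 : a * φ * a * φ = (a * φ * a * φ)⁻¹ := eq_inv_of_mul_eq_one_left h1
  rw [h2]
  simp only [mul_inv_rev, ia, iφ, mul_assoc]

theorem sq_conj {s x : G} (hs : s * s = 1) (hx : x * x = 1) : (s * x * s) * (s * x * s) = 1 := by
  have : s * x * s * (s * x * s) = s * x * (s * s) * x * s := by simp only [mul_assoc]
  rw [this, hs, mul_one, mul_assoc s x x, hx, mul_one, hs]

theorem finite_rot' (ha : a * a = 1) (hφ : φ * φ = 1) (hε : ε * ε = 1) (hc : φ * ε = ε * φ)
    (h4 : (a * φ) ^ 4 = 1)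
    (hfin : (Subgroup.closure {(a * ε * a) * (a * (φ * (a * ε * a) * φ) * a),
      (a * (φ * (a * ε * a) * φ) * a) * (φ * (a * ε * a) * φ),
      (φ * (a * ε * a) * φ) * ε} : Set G).Finite) :
    (Subgroup.closure {a, φ, ε} : Set G).Finite := by
  have can : ∀ s x : G, s * s = 1 → s * (s * x * s) * s = x := by
    intro s x hs
    have : s * (s * x * s) * s = (s * s) * x * (s * s) := by simp only [mul_assoc]
    rw [this, hs, one_mul, mul_one]
  have h1 : (a * ε * a) * (a * ε * a) = 1 := sq_conj ha hε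
  have h3 := sq_conj hφ h1
  have h2 := sq_conj ha h3
  refine finite_of_rot (E0 := ε) (E1 := a * ε * a) (E2 := a * (φ * (a * ε * a) * φ) * a)
    (E3 := φ * (a * ε * a) * φ) ha hφ h4 hε h1 h2 h3 rfl (can a ε ha) (can a _ ha) rfl ?_ rfl ?_
    (can φ _ hφ) hfin
  · rw [hc, mul_assoc, hφ, mul_one]
  · have e1 : φ * (a * (φ * (a * ε * a) * φ) * a) * φ =
        (φ * a * φ * a) * ε * (a * φ * a * φ) := by simp only [mul_assoc]
    rw [e1, half_turn ha hφ h4, ← half_turn ha hφ h4]
    have e2 : a * φ * a * φ * ε * (a * φ * a * φ) = a * φ * a * φ * ε * (φ * a * φ * a) := by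
      rw [← half_turn ha hφ h4]
    rw [e2]
    have e3 : a * φ * a * φ * ε * (φ * a * φ * a) = a * φ * a * (φ * ε * φ) * a * φ * a := by
      simp only [mul_assoc]
    rw [e3, hc, mul_assoc ε, hφ, mul_one]
    simp only [mul_assoc]

/-- the first straight word is the first rotation -/
theorem word_one (ha : a * a = 1) (hφ : φ * φ = 1) (hc : φ * ε = ε * φ)
    (h4 : (a * φ) ^ 4 = 1) :
    (a * (φ * ε)) * (a * (φ * ε)) * (a * φ) * (a * φ) =
      (a * ε * a) * (a * (φ * (a * ε * a) * φ) * a) := by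
  have e1 : (a * (φ * ε)) * (a * (φ * ε)) * (a * φ) * (a * φ) =
      a * (φ * ε) * a * (φ * ε) * (a * φ * a * φ) := by simp only [mul_assoc]
  rw [e1, half_turn ha hφ h4, hc]
  have e2 : a * (ε * φ) * a * (ε * φ) * (φ * a * φ * a) =
      a * ε * φ * a * ε * (φ * φ) * a * φ * a := by simp only [mul_assoc]
  rw [e2, hφ, mul_one]
  have e3 : (a * ε * a) * (a * (φ * (a * ε * a) * φ) * a) =
      a * ε * (a * a) * φ * a * ε * a * φ * a := by simp only [mul_assoc]
  rw [e3, ha, mul_one]

end

theorem pow_four_self (w : ℕ → Fin 3) : (a * B w (w 0)) ^ 4 = 1 := by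
  have h1 : (a * B w (w 0)) ^ 2 = sec (B (sh w 1) (w 0), B (sh w 1) (w 0)) := by
    rw [pow_two, aB_aB, om_self, mul_one, one_mul]
  have h2 : (a * B w (w 0)) ^ 4 = ((a * B w (w 0)) ^ 2) ^ 2 := by rw [← pow_mul]
  rw [h2, h1, pow_two, ← map_mul]
  have : ((B (sh w 1) (w 0), B (sh w 1) (w 0)) * (B (sh w 1) (w 0), B (sh w 1) (w 0)) : P × P) = 1 := by
    ext1
    · exact B_mul_self _ _
    · exact B_mul_self _ _
  rw [this, map_one]

theorem pow_eight {w : ℕ → Fin 3} {e : Fin 3} (h0 : w 0 ≠ e) (h1 : w 1 = e) :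
    (B w e * (a * B w e * a)) ^ 4 = 1 := by
  have e1 : B w e * (a * B w e * a) = sec (a * B (sh w 1) e, B (sh w 1) e * a) := by
    rw [aBa]
    conv_lhs => rw [B_eq w e]
    rw [← map_mul, om_ne (Ne.symm h0)]
    rfl
  have h2 : (a * B (sh w 1) e) ^ 4 = 1 := by
    have := pow_four_self (sh w 1)
    have h3 : sh w 1 0 = e := h1
    rwa [h3] at this
  have h3 : (B (sh w 1) e * a) ^ 4 = 1 := by
    have : B (sh w 1) e * a = (a * B (sh w 1) e)⁻¹ := by rw [mul_inv_rev, a_inv, B_inv]
    rw [this, inv_pow, h2, inv_one]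
  rw [e1, ← map_pow]
  have : ((a * B (sh w 1) e, B (sh w 1) e * a) : P × P) ^ 4 = 1 := by
    ext1
    · exact h2
    · exact h3
  rw [this, map_one]

/-- the generators of `G_w` -/
def gens (w : ℕ → Fin 3) : Set P := {x | x = a ∨ ∃ y, x = B w y}

theorem exists_sec (w : ℕ → Fin 3) (g : P) (hg : g ∈ Subgroup.closure (gens (sh w 1))) :
    ∃ h : P, sec (h, g) ∈ Subgroup.closure (gens w) := by
  induction hg using Subgroup.closure_induction with
  | mem x hx =>
    rcases hx with rfl | ⟨y, rfl⟩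
    · obtain ⟨x, hx⟩ : ∃ x : Fin 3, x ≠ w 0 := by
        have : ∀ f : Fin 3, ∃ g : Fin 3, g ≠ f := by decide
        exact this (w 0)
      refine ⟨B (sh w 1) x, ?_⟩
      have h1 := aBa w x
      rw [om_ne hx] at h1
      rw [← h1]
      have ha : a ∈ Subgroup.closure (gens w) := Subgroup.subset_closure (Or.inl rfl)
      exact Subgroup.mul_mem _ (Subgroup.mul_mem _ ha (Subgroup.subset_closure (Or.inr ⟨x, rfl⟩))) ha
    · refine ⟨om w y, ?_⟩
      rw [← B_eq]
      exact Subgroup.subset_closure (Or.inr ⟨y, rfl⟩)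
  | one => exact ⟨1, by rw [show ((1, 1) : P × P) = 1 from rfl, map_one]; exact Subgroup.one_mem _⟩
  | mul x y _ _ ihx ihy =>
    obtain ⟨h, hx⟩ := ihx
    obtain ⟨h', hy⟩ := ihy
    refine ⟨h * h', ?_⟩
    have := Subgroup.mul_mem _ hx hy
    rwa [← map_mul] at this
  | inv x _ ih =>
    obtain ⟨h, hx⟩ := ih
    refine ⟨h⁻¹, ?_⟩
    have := Subgroup.inv_mem _ hx
    rwa [← map_inv] at this

theorem transitive (v : List Bool) : ∀ w : ℕ → Fin 3, ∃ g ∈ Subgroup.closure (gens w),
    g (List.replicate v.length true) = v := by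
  induction v with
  | nil =>
    intro w
    exact ⟨1, Subgroup.one_mem _, rfl⟩
  | cons c v ih =>
    intro w
    obtain ⟨g, hg, hgv⟩ := ih (sh w 1)
    obtain ⟨h, hh⟩ := exists_sec w g hg
    have h1 : sec (h, g) (List.replicate (c :: v).length true) = true :: v := by
      rw [List.length_cons, List.replicate_succ, sec_true, hgv]
    cases c
    · refine ⟨a * sec (h, g), Subgroup.mul_mem _ (Subgroup.subset_closure (Or.inl rfl)) hh, ?_⟩
      rw [Equiv.Perm.mul_apply, h1]
      rfl
    · exact ⟨_, hh, h1⟩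

theorem infinite_G (w : ℕ → Fin 3) : (Subgroup.closure (gens w) : Set P).Infinite := by
  classical
  intro hfin
  have key : ∀ n : ℕ, 2 ^ n ≤ hfin.toFinset.card := by
    intro n
    have h1 : ((Finset.univ : Finset (Fin n → Bool)).image List.ofFn) ⊆
        hfin.toFinset.image fun g => g (List.replicate n true) := by
      intro v hv
      obtain ⟨u, _, rfl⟩ := Finset.mem_image.1 hv
      obtain ⟨g, hg, hgv⟩ := transitive (List.ofFn u) w
      rw [List.length_ofFn] at hgv
      exact Finset.mem_image.2 ⟨g, hfin.mem_toFinset.2 hg, hgv⟩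
    have h2 := Finset.card_le_card h1
    rw [Finset.card_image_of_injective _ List.ofFn_injective, Finset.card_univ,
      Fintype.card_fun, Fintype.card_bool, Fintype.card_fin] at h2
    exact h2.trans Finset.card_image_le
  exact absurd (key hfin.toFinset.card) (not_le.2 Nat.lt_two_pow_self)

/-- the straight words at the bottom -/
def bw (f g : Fin 3) : Fin 3 → List (Fin 3) := ![[g, g, f, f], [f, g, g, f], [f, f, g, g]]

/-- the base word -/
def b0 (f : Fin 3) : List (Fin 3) := [f, f, f, f]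

theorem par_b0 (f : Fin 3) : par (b0 f) = 0 := by
  funext x
  have : ∀ f x : Fin 3, ((b0 f).count x : ZMod 2) = 0 := by decide
  exact this f x

theorem par_bw (f g j : Fin 3) : par (bw f g j) = 0 := by
  funext x
  have : ∀ f g j x : Fin 3, ((bw f g j).count x : ZMod 2) = 0 := by decide
  exact this f g j x

theorem S_b0 (w : ℕ → Fin 3) : S w (b0 (w 0)) = 1 := by
  rw [← pow_four_self w]
  simp [S, b0, pow_succ, mul_assoc]

/-- the number of commutator words -/
abbrev mm : ℕ := Fintype.card ((Fin 3 → Fin 4) × Fin 3)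

/-- the commutator words -/
noncomputable def WW (i : Fin mm) : FreeGroup (Fin 3) := Wd ((Fintype.equivFin _).symm i)

theorem WW_mem (i : Fin mm) : WW i ∈ commutator (FreeGroup (Fin 3)) := Wd_mem _

/-- the subgroups at the bottom are infinite -/
theorem bottom_infinite {w : ℕ → Fin 3} {e f g : Fin 3} (hf : w 0 = f) (hfe : f ≠ e)
    (h1 : w 1 = e) (hge : g ≠ e) (hgf : g ≠ f) (s : Bool) :
    (Subgroup.closure {x | x ∈ List.ofFn fun i : Fin mm =>
      FreeGroup.lift (fun j => Q s (S w (bw f g j)) (S w (b0 f))) (WW i)} : Set P).Infinite := by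
  intro hfin
  subst hf
  set φ := B w (w 0) with hφd
  set ε := B w e with hεd
  have hφ : φ * φ = 1 := B_mul_self _ _
  have hε : ε * ε = 1 := B_mul_self _ _
  have hg : φ * ε = B w g := B_mul hfe (Ne.symm hge) (Ne.symm hgf)
  have hg' : ε * φ = B w g := B_mul (Ne.symm hfe) (Ne.symm hgf) (Ne.symm hge)
  have hc : φ * ε = ε * φ := by rw [hg, hg']
  have h4 : (a * φ) ^ 4 = 1 := pow_four_self w
  have hp : (ε * (a * ε * a)) ^ 4 = 1 := pow_eight hfe h1
  set E1 := a * ε * a with hE1
  set E3 := φ * E1 * φ with hE3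
  set E2 := a * E3 * a with hE2
  -- the straight words
  have r0 : S w (bw (w 0) g 0) = E1 * E2 := by
    rw [← word_one a_mul_a hφ hc h4, hg]
    simp [S, bw, mul_assoc, hφd]
  have r1 : S w (bw (w 0) g 1) = (a * φ) * (E1 * E2) * (a * φ)⁻¹ := by
    rw [← r0]
    simp [S, bw, mul_assoc, hφd]
  have r2 : S w (bw (w 0) g 2) = (a * φ) * ((a * φ) * (E1 * E2) * (a * φ)⁻¹) * (a * φ)⁻¹ := by
    rw [← r0]
    simp [S, bw, mul_assoc, hφd]
  have iφ : φ⁻¹ = φ := B_inv _ _
  have cj : ∀ x y : P, (a * φ) * (x * y) * (a * φ)⁻¹ =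
      (a * (φ * x * φ) * a) * (a * (φ * y * φ) * a) := by
    intro x y
    rw [mul_inv_rev, a_inv, iφ]
    have : a * (φ * x * φ) * a * (a * (φ * y * φ) * a) =
        a * φ * x * φ * (a * a) * φ * y * φ * a := by simp only [mul_assoc]
    rw [this, a_mul_a, mul_one]
    have : a * φ * x * φ * φ * y * φ * a = a * φ * x * (φ * φ) * y * φ * a := by
      simp only [mul_assoc]
    rw [this, hφ, mul_one]
    simp only [mul_assoc]
  have can : ∀ s x : P, s * s = 1 → s * (s * x * s) * s = x := by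
    intro s x hs
    have : s * (s * x * s) * s = (s * s) * x * (s * s) := by simp only [mul_assoc]
    rw [this, hs, one_mul, mul_one]
  have hp2 : φ * E2 * φ = E2 := by
    have e1 : φ * E2 * φ = (φ * a * φ * a) * ε * (a * φ * a * φ) := by
      simp only [hE2, hE3, hE1, mul_assoc]
    rw [e1, half_turn a_mul_a hφ h4, ← half_turn a_mul_a hφ h4]
    have e2 : a * φ * a * φ * ε * (a * φ * a * φ) = a * φ * a * φ * ε * (φ * a * φ * a) := by
      rw [← half_turn a_mul_a hφ h4]
    rw [e2]
    have e3 : a * φ * a * φ * ε * (φ * a * φ * a) = a * φ * a * (φ * ε * φ) * a * φ * a := by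
      simp only [mul_assoc]
    rw [e3, hc, mul_assoc ε, hφ, mul_one]
    simp only [hE2, hE3, hE1, mul_assoc]
  have r1' : S w (bw (w 0) g 1) = E2 * E3 := by
    rw [r1, cj, hp2]
    have : a * E2 * a = E3 := by rw [hE2]; exact can a _ a_mul_a
    rw [this]
  have r2' : S w (bw (w 0) g 2) = E3 * ε := by
    rw [r2, ← r1, r1', cj, hp2]
    have h5 : a * E2 * a = E3 := by rw [hE2]; exact can a _ a_mul_a
    have h6 : φ * E3 * φ = E1 := by rw [hE3]; exact can φ _ hφ
    have h7 : a * E1 * a = ε := by rw [hE1]; exact can a _ a_mul_a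
    rw [h5, h6, h7]
  have hr4 : (E1 * E2) ^ 4 = 1 := by
    have e0 : φ * ε * φ = ε := by rw [hc, mul_assoc, hφ, mul_one]
    have : E1 * E2 = (a * φ) * (ε * E1) * (a * φ)⁻¹ := by
      rw [cj, e0]
    rw [this, conj_pow, hp, mul_one, mul_inv_cancel]
  have hS4 : ∀ j, S w (bw (w 0) g j) ^ 4 = 1 := by
    intro j
    fin_cases j
    · change S w (bw (w 0) g 0) ^ 4 = 1
      rw [r0, hr4]
    · change S w (bw (w 0) g 1) ^ 4 = 1
      rw [r1, conj_pow, hr4, mul_one, mul_inv_cancel]
    · change S w (bw (w 0) g 2) ^ 4 = 1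
      rw [r2, conj_pow, conj_pow, hr4, mul_one, mul_inv_cancel, mul_one, mul_inv_cancel]
  set r : Fin 3 → P := fun j => Q s (S w (bw (w 0) g j)) (S w (b0 (w 0))) with hr
  have hrj : ∀ j, r j = S w (bw (w 0) g j) ∨ r j = (S w (bw (w 0) g j))⁻¹ := by
    intro j
    rw [hr]
    simp only [S_b0]
    cases s
    · right
      simp [Q]
    · left
      simp [Q]
  have hrp : ∀ j, r j ^ 4 = 1 := by
    intro j
    rcases hrj j with h | h
    · rw [h, hS4]
    · rw [h, inv_pow, hS4, inv_one]
  have hset : {x | x ∈ List.ofFn fun i : Fin mm => FreeGroup.lift r (WW i)} =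
      Set.range fun i => FreeGroup.lift r (Wd i) := by
    ext x
    simp only [Set.mem_ofPred_eq, List.mem_ofFn', Set.mem_range]
    constructor
    · rintro ⟨i, rfl⟩
      exact ⟨_, rfl⟩
    · rintro ⟨i, rfl⟩
      exact ⟨(Fintype.equivFin _) i, by unfold WW; rw [Equiv.symm_apply_apply]⟩
  rw [hset] at hfin
  have h5 := finite_of_Wd r hrp hfin
  have h6 : (Subgroup.closure {E1 * E2, E2 * E3, E3 * ε} : Set P).Finite := by
    refine h5.subset ?_
    have : Subgroup.closure {E1 * E2, E2 * E3, E3 * ε} ≤ Subgroup.closure (Set.range r) := by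
      rw [Subgroup.closure_le]
      have hmem : ∀ j, S w (bw (w 0) g j) ∈ Subgroup.closure (Set.range r) := by
        intro j
        have h7 : r j ∈ Subgroup.closure (Set.range r) := Subgroup.subset_closure ⟨j, rfl⟩
        rcases hrj j with h | h
        · rwa [h] at h7
        · rw [h] at h7
          exact (Subgroup.inv_mem_iff _).1 h7
      rintro x (rfl | rfl | rfl)
      · rw [← r0]; exact hmem 0
      · rw [← r1']; exact hmem 1
      · rw [← r2']; exact hmem 2
    exact this
  have h7 := finite_rot' a_mul_a hφ hε hc h4 h6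
  refine infinite_G w (h7.subset ?_)
  have : Subgroup.closure (gens w) ≤ Subgroup.closure {a, φ, ε} := by
    rw [Subgroup.closure_le]
    rintro x (rfl | ⟨y, rfl⟩)
    · exact Subgroup.subset_closure (by simp)
    · have : y = w 0 ∨ y = e ∨ y = g := by omega
      rcases this with rfl | rfl | rfl
      · exact Subgroup.subset_closure (by simp [hφd])
      · exact Subgroup.subset_closure (by simp [hεd])
      · rw [← hg]
        exact Subgroup.mul_mem _ (Subgroup.subset_closure (by simp))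
          (Subgroup.subset_closure (by simp))
  exact this

end Pool.Agent.W380.Fol
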