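import Pool.Agent.W380.Fol.Abs
import Pool.Agent.W380.Fol.Grp

/-!
# The lower bound for the Følner functions of the groups `G_w`
-/

set_option autoImplicit false

namespace Pool.Agent.W380.Fol

/-! ### word length -/

/-- `y` is a product of at most `L` elements of `T` -/
def Len (T : Set P) (L : ℕ) (y : P) : Prop :=
  ∃ l : List P, l.length ≤ L ∧ (∀ x ∈ l, x ∈ T) ∧ l.prod = y

theorem Len.mul {T : Set P} {L L' : ℕ} {x y : P} (hx : Len T L x) (hy : Len T L' y) :
    Len T (L + L') (x * y) := by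
  obtain ⟨l, hl, h, rfl⟩ := hx
  obtain ⟨l', hl', h', rfl⟩ := hy
  refine ⟨l ++ l', by rw [List.length_append]; omega, ?_, List.prod_append⟩
  intro z hz
  rcases List.mem_append.1 hz with h1 | h1
  · exact h z h1
  · exact h' z h1

theorem Len.mono {T : Set P} {L L' : ℕ} (h : L ≤ L') {x : P} (hx : Len T L x) : Len T L' x := by
  obtain ⟨l, hl, hx, rfl⟩ := hx
  exact ⟨l, hl.trans h, hx, rfl⟩

theorem Len.one {T : Set P} {L : ℕ} : Len T L 1 := ⟨[], Nat.zero_le _, by simp, rfl⟩

theorem gens_inv {w : ℕ → Fin 3} {x : P} (hx : x ∈ gens w) : x⁻¹ = x := by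
  rcases hx with rfl | ⟨y, rfl⟩
  · exact a_inv
  · exact B_inv w y

theorem Len.inv {w : ℕ → Fin 3} {L : ℕ} {x : P} (hx : Len (gens w) L x) :
    Len (gens w) L x⁻¹ := by
  obtain ⟨l, hl, h, rfl⟩ := hx
  refine ⟨l.reverse, by rwa [List.length_reverse], fun z hz => h z (List.mem_reverse.1 hz), ?_⟩
  rw [List.prod_inv_reverse]
  congr 2
  refine (List.map_id _).symm.trans ?_
  refine List.map_congr_left fun z hz => ?_
  exact (gens_inv (h z hz)).symm

theorem Str.len {w : ℕ → Fin 3} {e : Fin 3} {N : ℕ} {κ : Fin 3 → ZMod 2} {y : P}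
    (h : Str w e N κ y) : Len (gens w) (2 * N) y := by
  obtain ⟨ξ, rfl, -, -, rfl⟩ := h
  induction ξ with
  | nil => exact Len.one
  | cons x ξ ih =>
    have h1 : S w (x :: ξ) = (a * B w x) * S w ξ := by simp [S]
    rw [h1, List.length_cons]
    have h2 : Len (gens w) 2 (a * B w x) :=
      ⟨[a, B w x], le_rfl, by
        intro z hz
        simp only [List.mem_cons, List.not_mem_nil, or_false] at hz
        rcases hz with rfl | rfl
        · exact Or.inl rfl
        · exact Or.inr ⟨x, rfl⟩, by simp⟩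
    exact (h2.mul ih).mono (by omega)

theorem Q_len {w : ℕ → Fin 3} {L : ℕ} (s : Bool) {x y : P} (hx : Len (gens w) L x)
    (hy : Len (gens w) L y) : Len (gens w) (2 * L) (Q s x y) := by
  cases s
  · exact (hx.inv.mul hy).mono (by omega)
  · exact (hx.mul hy.inv).mono (by omega)

theorem word_len {J : Type*} (W : FreeGroup J) : ∃ C : ℕ, ∀ (w : ℕ → Fin 3) (L : ℕ) (f : J → P),
    (∀ j, Len (gens w) L (f j)) → Len (gens w) (C * L) (FreeGroup.lift f W) := by
  induction W using FreeGroup.induction_on with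
  | C1 => exact ⟨0, fun w L f _ => by rw [map_one]; exact Len.one⟩
  | of j => exact ⟨1, fun w L f hf => by rw [one_mul, FreeGroup.lift_apply_of]; exact hf j⟩
  | inv_of j _ =>
    exact ⟨1, fun w L f hf => by rw [one_mul, map_inv, FreeGroup.lift_apply_of]; exact (hf j).inv⟩
  | mul x y hx hy =>
    obtain ⟨C, hC⟩ := hx
    obtain ⟨C', hC'⟩ := hy
    refine ⟨C + C', fun w L f hf => ?_⟩
    rw [map_mul, add_mul]
    exact (hC w L f hf).mul (hC' w L f hf)

/-! ### almost invariance under words -/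

open Classical in
theorem leave_mul (F : Finset P) (x y : P) :
    (F.filter fun z => z * (x * y) ∉ F).card ≤
      (F.filter fun z => z * x ∉ F).card + (F.filter fun z => z * y ∉ F).card := by
  have h1 : (F.filter fun z => z * (x * y) ∉ F) ⊆
      (F.filter fun z => z * x ∉ F) ∪
        (F.filter fun z => z * x ∈ F ∧ z * x * y ∉ F) := by
    intro z hz
    rw [Finset.mem_filter] at hz
    rw [Finset.mem_union, Finset.mem_filter, Finset.mem_filter]
    by_cases h : z * x ∈ F
    · exact Or.inr ⟨hz.1, h, by rw [mul_assoc]; exact hz.2⟩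
    · exact Or.inl ⟨hz.1, h⟩
  have h2 : (F.filter fun z => z * x ∈ F ∧ z * x * y ∉ F).card ≤
      (F.filter fun z => z * y ∉ F).card := by
    refine Finset.card_le_card_of_injOn (fun z => z * x) ?_ ?_
    · intro z hz
      rw [Finset.mem_coe, Finset.mem_filter] at hz ⊢
      exact ⟨hz.2.1, hz.2.2⟩
    · intro z _ z' _ h
      exact mul_right_cancel h
  exact (Finset.card_le_card h1).trans ((Finset.card_union_le _ _).trans (by omega))

open Classical in
theorem leave_len {T : Set P} {L : ℕ} {x : P} (hx : Len T L x) (F : Finset P) :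
    (F.filter fun z => z * x ∉ F).card ≤ L * (F.filter fun z => ∃ s ∈ T, z * s ∉ F).card := by
  obtain ⟨l, hl, h, rfl⟩ := hx
  have key : ∀ l : List P, (∀ x ∈ l, x ∈ T) → (F.filter fun z => z * l.prod ∉ F).card ≤
      l.length * (F.filter fun z => ∃ s ∈ T, z * s ∉ F).card := by
    intro l hl
    induction l with
    | nil => simp
    | cons x l ih =>
      rw [List.prod_cons, List.length_cons]
      refine (leave_mul F x l.prod).trans ?_
      have h1 : (F.filter fun z => z * x ∉ F).card ≤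
          (F.filter fun z => ∃ s ∈ T, z * s ∉ F).card := by
        refine Finset.card_le_card fun z hz => ?_
        rw [Finset.mem_filter] at hz ⊢
        exact ⟨hz.1, x, hl x List.mem_cons_self, hz.2⟩
      have h2 := ih fun y hy => hl y (List.mem_cons_of_mem _ hy)
      calc _ ≤ (F.filter fun z => ∃ s ∈ T, z * s ∉ F).card +
            l.length * (F.filter fun z => ∃ s ∈ T, z * s ∉ F).card := add_le_add h1 h2
        _ = _ := by ring
  exact (key l h).trans (Nat.mul_le_mul_right _ hl)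

/-! ### the blocks -/

/-- the block of `ρ` -/
def blk (w : ℕ → Fin 3) (e : Fin 3) (k : ℕ) (ρ : Fin k → Bool) : Finset (Fin k → Bool) :=
  Finset.univ.filter fun u => InBlk w e k ρ u

theorem mem_blk {w : ℕ → Fin 3} {e : Fin 3} {k : ℕ} {ρ u : Fin k → Bool} :
    u ∈ blk w e k ρ ↔ InBlk w e k ρ u := by
  simp [blk]

theorem blk_symm {w : ℕ → Fin 3} {e : Fin 3} {k : ℕ} (ρ u : Fin k → Bool)
    (h : u ∈ blk w e k ρ) : ρ ∈ blk w e k u := by
  rw [mem_blk] at h ⊢
  exact fun i hi => (h i hi).symm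

/-- the number of levels of type `e` above level `k` -/
def cE (w : ℕ → Fin 3) (e : Fin 3) (k : ℕ) : ℕ :=
  (Finset.univ.filter fun i : Fin k => w i = e).card

theorem card_blk (w : ℕ → Fin 3) (e : Fin 3) (k : ℕ) (ρ : Fin k → Bool) :
    (blk w e k ρ).card = 2 ^ cE w e k := by
  have h1 : blk w e k ρ =
      Fintype.piFinset fun i : Fin k => if w i = e then (Finset.univ : Finset Bool) else {ρ i} := by
    ext u
    rw [mem_blk, Fintype.mem_piFinset]
    refine forall_congr' fun i => ?_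
    by_cases h : w i = e
    · simp [h]
    · simp [h]
  rw [h1, Fintype.card_piFinset]
  have h2 : ∀ i : Fin k, (if w i = e then (Finset.univ : Finset Bool) else {ρ i}).card =
      if w i = e then 2 else 1 := fun i => by
    split_ifs <;> simp
  rw [Finset.prod_congr rfl fun i _ => h2 i, Finset.prod_ite, Finset.prod_const, Finset.prod_const,
    one_pow, mul_one]
  rfl

/-! ### patterns -/

/-- the generators at the vertex `u` -/
noncomputable def sig (w : ℕ → Fin 3) (g : Fin 3) (k : ℕ) (u : Fin k → Bool) (i : Fin mm) : P :=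
  FreeGroup.lift (fun j => Q (sg k true u) (S (sh w k) (bw (w k) g j)) (S (sh w k) (b0 (w k))))
    (WW i)

theorem exists_bound : ∃ C : ℕ, 0 < C ∧ ∀ (w : ℕ → Fin 3) (e g : Fin 3) (k : ℕ), w k ≠ e → g ≠ e →
    ∀ (ρ : Fin k → Bool) (i : Fin mm), ∀ p ⊆ blk w e k ρ,
      Len (gens w) (C * 2 ^ k) (spread k (pat (fun u => sig w g k u i) p)) := by
  choose c hc using fun i : Fin mm => word_len (WW i)
  refine ⟨(∑ i, c i) * 16 + 1, by omega, fun w e g k hk hg ρ i p hp => ?_⟩
  have hstr : ∀ ξ : List (Fin 3), ξ.length = 4 → (∀ x ∈ ξ, x ≠ e) → par ξ = 0 →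
      Str (sh w k) e 4 0 (S (sh w k) ξ) := fun ξ h1 h2 h3 => ⟨ξ, h1, h2, h3, rfl⟩
  have hb : Str (sh w k) e 4 0 (S (sh w k) (b0 (w k))) := by
    refine hstr _ rfl ?_ (par_b0 _)
    intro x hx
    simp only [b0, List.mem_cons, List.not_mem_nil, or_false, or_self] at hx
    rw [hx]
    exact hk
  have hw : ∀ j, Str (sh w k) e 4 0 (S (sh w k) (bw (w k) g j)) := by
    intro j
    refine hstr _ ?_ ?_ (par_bw _ _ _)
    · fin_cases j <;> rfl
    · intro x hx
      have : x = g ∨ x = w k := by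
        fin_cases j <;> simp [bw] at hx <;> tauto
      rcases this with rfl | rfl
      · exact hg
      · exact hk
  obtain ⟨κ', X, Y, hX, hY, hXY⟩ := lift_claim (J := Fin 3) e 4 k w ρ (fun _ => 0)
    (fun j u => if u ∈ p then S (sh w k) (bw (w k) g j) else S (sh w k) (b0 (w k)))
    (fun _ => S (sh w k) (b0 (w k)))
    (fun j u => by
      split_ifs
      · exact hw j
      · exact hb) (fun _ => hb)
  have h1 := hXY true (WW i) (WW_mem i)
  have h2 : (fun u => if InBlk w e k ρ u then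
      FreeGroup.lift (fun j => Q (sg k true u) (if u ∈ p then S (sh w k) (bw (w k) g j)
        else S (sh w k) (b0 (w k))) (S (sh w k) (b0 (w k)))) (WW i) else 1) =
      pat (fun u => sig w g k u i) p := by
    funext u
    unfold pat
    by_cases hu : u ∈ p
    · rw [if_pos (mem_blk.1 (hp hu)), if_pos hu]
      simp only [hu, if_true]
      rfl
    · rw [if_neg hu]
      simp only [hu, if_false, Q_self]
      have : FreeGroup.lift (fun _ : Fin 3 => (1 : P)) = 1 := by
        ext j
        simp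
      rw [this]
      simp
  rw [h2] at h1
  rw [← h1]
  have h3 := hc i w (4 * (2 * 2 ^ k * 2)) (fun j => Q true (X j) Y) (fun j => by
    have := Q_len (L := 2 * (2 ^ k * 4)) true (hX j).len hY.len
    exact this.mono (by ring_nf; omega))
  refine h3.mono ?_
  have h4 : c i ≤ ∑ i, c i := Finset.single_le_sum (fun _ _ => Nat.zero_le _) (Finset.mem_univ i)
  calc c i * (4 * (2 * 2 ^ k * 2)) ≤ (∑ i, c i) * (4 * (2 * 2 ^ k * 2)) :=
        Nat.mul_le_mul_right _ h4
    _ = (∑ i, c i) * 16 * 2 ^ k := by ring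
    _ ≤ _ := Nat.mul_le_mul_right _ (by omega)

/-! ### the lower bound -/

open Classical in
theorem main_bound (C : ℕ) (hC : ∀ (w : ℕ → Fin 3) (e g : Fin 3) (k : ℕ), w k ≠ e → g ≠ e →
    ∀ (ρ : Fin k → Bool) (i : Fin mm), ∀ p ⊆ blk w e k ρ,
      Len (gens w) (C * 2 ^ k) (spread k (pat (fun u => sig w g k u i) p)))
    (w : ℕ → Fin 3) (e : Fin 3) (k n : ℕ) (h0 : w k ≠ e) (h1 : w (k + 1) = e)
    (hr : 64 * n ^ 2 * mm ≤ 2 ^ cE w e k) (hn : 1 ≤ n) (F : Finset P) (hF : F.Nonempty)
    (hfol : (128 * mm ^ 2 * C * 2 ^ k) * (F.filter fun z => ∃ s ∈ gens w, z * s ∉ F).card ≤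
      F.card) :
    3 / 4 * 2 ^ k * Real.log ((n + 1 : ℕ) / 2) ≤ Real.log F.card := by
  obtain ⟨g, hge, hgf⟩ : ∃ g : Fin 3, g ≠ e ∧ g ≠ w k := by
    have : ∀ e f : Fin 3, ∃ g : Fin 3, g ≠ e ∧ g ≠ f := by decide
    exact this e (w k)
  have hbot : ∀ u : Fin k → Bool, (Subgroup.closure {x | x ∈ List.ofFn (sig w g k u)} :
      Set P).Infinite := fun u =>
    bottom_infinite (w := sh w k) (e := e) (f := w k) (g := g)
      (by change w (0 + k) = w k; rw [zero_add]) h0
      (by change w (1 + k) = e; rw [add_comm]; exact h1) hge hgf (sg k true u)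
  choose y hy hyb using fun u => exists_inj_ball (List.ofFn (sig w g k u)) (hbot u) n
  have hm : (0 : ℝ) < mm := by
    have : 0 < mm := Fintype.card_pos
    exact_mod_cast this
  set δ : ℝ := 1 / (8 * mm) with hδ
  have hδ0 : 0 ≤ δ := by positivity
  have hδ2 : δ ^ 2 = 1 / (64 * (mm : ℝ) ^ 2) := by
    rw [hδ, div_pow, mul_pow]
    norm_num
  have h2 := folner_abs (spread k) (spread_injective k) (sig w g k) F hF δ hδ0 (blk w e k)
    (2 ^ cE w e k) (by positivity) (card_blk w e k) blk_symm (by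
      intro ρ i p hp
      have h3 := leave_len (hC w e g k h0 hge ρ i p hp) F
      have h4 : (128 * (mm : ℝ) ^ 2) * ((F.filter fun x =>
          x * spread k (pat (fun u => sig w g k u i) p) ∉ F).card : ℝ) ≤ F.card := by
        have h5 : 128 * mm ^ 2 * (F.filter fun x =>
            x * spread k (pat (fun u => sig w g k u i) p) ∉ F).card ≤ F.card := by
          refine le_trans ?_ hfol
          calc 128 * mm ^ 2 * (F.filter fun x =>
              x * spread k (pat (fun u => sig w g k u i) p) ∉ F).card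
              ≤ 128 * mm ^ 2 * (C * 2 ^ k * (F.filter fun z => ∃ s ∈ gens w, z * s ∉ F).card) :=
                Nat.mul_le_mul_left _ h3
            _ = _ := by ring
        exact_mod_cast h5
      rw [hδ2, one_div, inv_mul_eq_div, le_div_iff₀ (by positivity)]
      linarith) n (n + 1) (by omega) y hy hyb (by
      rw [hδ2]
      have h3 : (64 : ℝ) * n ^ 2 * mm ≤ ((2 ^ cE w e k : ℕ) : ℝ) := by exact_mod_cast hr
      have h4 : 8 * (mm : ℝ) ^ 2 * (1 / (64 * (mm : ℝ) ^ 2)) * ((2 ^ cE w e k : ℕ) : ℝ) =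
          ((2 ^ cE w e k : ℕ) : ℝ) / 8 := by
        field_simp
        norm_num
      rw [h4]
      linarith)
  have h3 : (Fintype.card (Fin k → Bool) : ℝ) = 2 ^ k := by
    rw [Fintype.card_fun, Fintype.card_bool, Fintype.card_fin]
    push_cast
    rfl
  rw [h3] at h2
  exact h2

theorem cE_mono (w : ℕ → Fin 3) (e : Fin 3) {k l : ℕ} (h : k ≤ l) : cE w e k ≤ cE w e l := by
  unfold cE
  refine Finset.card_le_card_of_injOn (fun i => Fin.castLE h i) ?_ ?_
  · intro i hi
    rw [Finset.mem_coe, Finset.mem_filter] at hi ⊢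
    exact ⟨Finset.mem_univ _, hi.2⟩
  · intro i _ j _ hij
    exact Fin.castLE_injective h hij

theorem cE_succ (w : ℕ → Fin 3) (e : Fin 3) (k : ℕ) (h : w k = e) : cE w e k + 1 ≤ cE w e (k + 1) := by
  unfold cE
  have h1 : ((Finset.univ.filter fun i : Fin k => w i = e).map Fin.castSuccEmb) ∪ {Fin.last k} ⊆
      Finset.univ.filter fun i : Fin (k + 1) => w i = e := by
    intro i hi
    rw [Finset.mem_union, Finset.mem_map, Finset.mem_singleton] at hi
    rw [Finset.mem_filter]
    refine ⟨Finset.mem_univ _, ?_⟩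
    rcases hi with ⟨j, hj, rfl⟩ | rfl
    · exact (Finset.mem_filter.1 hj).2
    · exact h
  refine le_trans ?_ (Finset.card_le_card h1)
  rw [Finset.card_union_of_disjoint, Finset.card_map, Finset.card_singleton]
  rw [Finset.disjoint_singleton_right]
  intro hm
  obtain ⟨j, _, hj⟩ := Finset.mem_map.1 hm
  exact (Fin.castSucc_lt_last j).ne hj

/-- choice of the letter and of the level -/
theorem exists_level (w : ℕ → Fin 3) (hw : ¬ ∃ (i : Fin 3) (N : ℕ), ∀ n ≥ N, w n = i) :
    ∃ e : Fin 3, ∀ M : ℕ, ∃ k, w k ≠ e ∧ w (k + 1) = e ∧ M ≤ cE w e k := by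
  -- a letter occurring infinitely often
  obtain ⟨e, he⟩ : ∃ e : Fin 3, ∀ N, ∃ n ≥ N, w n = e := by
    by_contra hcon
    push Not at hcon
    choose N hN using hcon
    have h1 := hN (w (N 0 + N 1 + N 2)) (N 0 + N 1 + N 2)
    have : ∀ x : Fin 3, N x ≤ N 0 + N 1 + N 2 := by
      intro x
      fin_cases x
      · change N 0 ≤ _; omega
      · change N 1 ≤ _; omega
      · change N 2 ≤ _; omega
    exact h1 (this _) rfl
  refine ⟨e, fun M => ?_⟩
  -- the count is unbounded
  have hcount : ∀ M, ∃ k, M ≤ cE w e k := by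
    intro M
    induction M with
    | zero => exact ⟨0, Nat.zero_le _⟩
    | succ M ih =>
      obtain ⟨k, hk⟩ := ih
      obtain ⟨n, hn, hne⟩ := he k
      exact ⟨n + 1, (Nat.succ_le_succ (hk.trans (cE_mono w e hn))).trans (cE_succ w e n hne)⟩
  obtain ⟨k0, hk0⟩ := hcount M
  -- a later place with another letter
  obtain ⟨n, hn, hne⟩ : ∃ n ≥ k0, w n ≠ e := by
    by_contra hcon
    push Not at hcon
    exact hw ⟨e, k0, hcon⟩
  -- the next occurrence of `e`
  obtain ⟨m, hm, hme⟩ := he n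
  have hex : ∃ t, w (n + t) = e := ⟨m - n, by rw [Nat.add_sub_cancel' hm]; exact hme⟩
  classical
  have hspec := Nat.find_spec hex
  have hmin := fun t (ht : t < Nat.find hex) => Nat.find_min hex ht
  have hpos : Nat.find hex ≠ 0 := by
    intro h0
    rw [h0] at hspec
    exact hne hspec
  refine ⟨n + (Nat.find hex - 1), hmin _ (by omega), ?_, hk0.trans (cE_mono w e (by omega))⟩
  rw [show n + (Nat.find hex - 1) + 1 = n + Nat.find hex by omega]
  exact hspec

theorem final_calc {T' L q K : ℝ} (hT : 1 ≤ T') (hq : 1 ≤ q) (h3 : q * (T' * K + T') ≤ L) :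
    Real.log T' + T' * (K * q) < L := by
  have h5 : Real.log T' < T' := by
    have := Real.log_le_sub_one_of_pos (by linarith : (0 : ℝ) < T')
    linarith
  have h6 : T' ≤ q * T' := by nlinarith
  have h7 : q * (T' * K + T') = T' * (K * q) + q * T' := by ring
  linarith

open Classical in
/-- **Main theorem**, for sets of permutations. -/
theorem main_P (w : ℕ → Fin 3) (hw : ¬ ∃ (i : Fin 3) (N : ℕ), ∀ n ≥ N, w n = i) (T : ℝ) :
    ∃ n : ℕ, 1 ≤ n ∧ ∀ F : Finset P, F.Nonempty →
      n * (F.filter fun z => ∃ s ∈ gens w, z * s ∉ F).card ≤ F.card →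
      T * Real.exp (T * n) < F.card := by
  obtain ⟨C, hC0, hC⟩ := exists_bound
  obtain ⟨e, he⟩ := exists_level w hw
  have hm : 0 < mm := Fintype.card_pos
  set K : ℕ := 128 * mm ^ 2 * C with hK
  have hK0 : 0 < K := by positivity
  set T' : ℝ := max T 1 with hT'
  have hT1 : 1 ≤ T' := le_max_right _ _
  have hTT : T ≤ T' := le_max_left _ _
  -- the radius
  obtain ⟨n0, hn0, hn0'⟩ : ∃ n0 : ℕ, 1 ≤ n0 ∧
      T' * K + T' ≤ 3 / 4 * Real.log ((n0 + 1 : ℕ) / 2) := by
    obtain ⟨n0, hn0⟩ := exists_nat_ge (2 * Real.exp (4 / 3 * (T' * K + T')))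
    refine ⟨n0 + 1, by omega, ?_⟩
    have h1 : Real.exp (4 / 3 * (T' * K + T')) ≤ ((n0 + 1 + 1 : ℕ) : ℝ) / 2 := by
      rw [le_div_iff₀ (by norm_num)]
      push_cast
      linarith
    have h2 := Real.log_le_log (Real.exp_pos _) h1
    rw [Real.log_exp] at h2
    linarith
  obtain ⟨k, hk0, hk1, hk2⟩ := he (64 * n0 ^ 2 * mm)
  refine ⟨K * 2 ^ k, ?_, fun F hF hfol => ?_⟩
  · exact Nat.one_le_iff_ne_zero.2 (by positivity)
  have hr : 64 * n0 ^ 2 * mm ≤ 2 ^ cE w e k := hk2.trans Nat.lt_two_pow_self.le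
  have h1 := main_bound C hC w e k n0 hk0 hk1 hr hn0 F hF hfol
  have hFc : (0 : ℝ) < F.card := by exact_mod_cast hF.card_pos
  have h2k : (1 : ℝ) ≤ 2 ^ k := one_le_pow₀ (by norm_num)
  -- the final computation
  have h3 : 2 ^ k * (T' * K + T') ≤ Real.log F.card := by
    have := mul_le_mul_of_nonneg_left hn0' (by positivity : (0 : ℝ) ≤ 2 ^ k)
    linarith
  have h4 : T' * Real.exp (T' * (K * 2 ^ k)) < F.card := by
    have h6 : Real.log (T' * Real.exp (T' * (K * 2 ^ k))) < Real.log F.card := by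
      rw [Real.log_mul (by linarith) (Real.exp_pos _).ne', Real.log_exp]
      exact final_calc hT1 h2k h3
    exact (Real.log_lt_log_iff (by positivity) hFc).1 h6
  have h7 : T * Real.exp (T * ((K * 2 ^ k : ℕ) : ℝ)) ≤ T' * Real.exp (T' * (K * 2 ^ k)) := by
    have e1 : ((K * 2 ^ k : ℕ) : ℝ) = K * 2 ^ k := by push_cast; rfl
    rw [e1]
    by_cases hT0 : T ≤ 0
    · refine (mul_nonpos_of_nonpos_of_nonneg hT0 (Real.exp_pos _).le).trans ?_
      positivity
    · push Not at hT0
      gcongr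
  linarith

end Pool.Agent.W380.Fol
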