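import Mathlib

/-!
# The groups `G_w` as permutations of finite binary words
-/

set_option autoImplicit false

namespace Pool.Agent.W380.Fol

/-- permutations of the finite binary words -/
abbrev P := Equiv.Perm (List Bool)

/-- act by `g` below the letter `false` and by `h` below the letter `true` -/
def secFun (g h : List Bool → List Bool) : List Bool → List Bool
  | [] => []
  | false :: v => false :: g v
  | true :: v => true :: h v

/-- the homomorphism `P × P → P` -/
def sec : P × P →* P where
  toFun g :=
    { toFun := secFun g.1 g.2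
      invFun := secFun g.1.symm g.2.symm
      left_inv := by
        rintro (_ | ⟨_ | _, v⟩) <;> simp [secFun]
      right_inv := by
        rintro (_ | ⟨_ | _, v⟩) <;> simp [secFun] }
  map_one' := by
    ext1 v
    rcases v with _ | ⟨_ | _, v⟩ <;> rfl
  map_mul' g h := by
    ext1 v
    rcases v with _ | ⟨_ | _, v⟩ <;> rfl

theorem sec_false (g : P × P) (v : List Bool) : sec g (false :: v) = false :: g.1 v := rfl
theorem sec_true (g : P × P) (v : List Bool) : sec g (true :: v) = true :: g.2 v := rfl
theorem sec_nil (g : P × P) : sec g [] = [] := rfl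

theorem sec_injective : Function.Injective sec := by
  rintro ⟨g, g'⟩ ⟨h, h'⟩ hgh
  have h1 : g = h := by
    ext1 v
    have := congrArg (fun x : P => x (false :: v)) hgh
    simpa [sec_false] using this
  have h2 : g' = h' := by
    ext1 v
    have := congrArg (fun x : P => x (true :: v)) hgh
    simpa [sec_true] using this
  rw [h1, h2]

/-- the switch of the first letter -/
def aFun : List Bool → List Bool
  | [] => []
  | x :: v => (!x) :: v

theorem aFun_invol : Function.Involutive aFun := by
  rintro (_ | ⟨x, v⟩) <;> simp [aFun]

/-- the generator `a` -/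
def a : P := aFun_invol.toPerm

theorem a_apply (v : List Bool) : a v = aFun v := rfl

theorem a_mul_a : a * a = 1 := by
  ext1 v
  exact aFun_invol v

theorem a_inv : a⁻¹ = a := inv_eq_of_mul_eq_one_left a_mul_a

theorem a_sec_a (g h : P) : a * sec (g, h) * a = sec (h, g) := by
  ext1 v
  rcases v with _ | ⟨_ | _, v⟩ <;> rfl

/-- the directed generators: trivial on the left at the levels where `w` is equal to `x` -/
def bFun : List Bool → (ℕ → Fin 3) → Fin 3 → List Bool
  | [], _, _ => []
  | false :: v, w, x => false :: (if x = w 0 then v else aFun v)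
  | true :: v, w, x => true :: bFun v (fun n => w (n + 1)) x

theorem bFun_invol (v : List Bool) : ∀ (w : ℕ → Fin 3) (x : Fin 3), bFun (bFun v w x) w x = v := by
  induction v with
  | nil => intros; rfl
  | cons y v ih =>
    intro w x
    cases y
    · by_cases h : x = w 0
      · simp [bFun, h]
      · simp only [bFun, h, if_false]
        rw [aFun_invol v]
    · simp only [bFun]
      rw [ih]

/-- the directed generator -/
def B (w : ℕ → Fin 3) (x : Fin 3) : P where
  toFun v := bFun v w x
  invFun v := bFun v w x
  left_inv v := bFun_invol v w x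
  right_inv v := bFun_invol v w x

/-- the shifted sequence -/
def sh (w : ℕ → Fin 3) (k : ℕ) : ℕ → Fin 3 := fun n => w (n + k)

/-- the left section of a directed generator -/
def om (w : ℕ → Fin 3) (x : Fin 3) : P := if x = w 0 then 1 else a

theorem B_eq (w : ℕ → Fin 3) (x : Fin 3) : B w x = sec (om w x, B (sh w 1) x) := by
  ext1 v
  rcases v with _ | ⟨_ | _, v⟩
  · rfl
  · change false :: (if x = w 0 then v else aFun v) = false :: (om w x) v
    unfold om
    split_ifs <;> rfl
  · rfl

theorem om_self (w : ℕ → Fin 3) : om w (w 0) = 1 := if_pos rfl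
theorem om_ne {w : ℕ → Fin 3} {x : Fin 3} (h : x ≠ w 0) : om w x = a := if_neg h

theorem B_mul_self (w : ℕ → Fin 3) (x : Fin 3) : B w x * B w x = 1 := by
  ext1 v
  exact bFun_invol v w x

theorem B_inv (w : ℕ → Fin 3) (x : Fin 3) : (B w x)⁻¹ = B w x :=
  inv_eq_of_mul_eq_one_left (B_mul_self w x)

theorem om_mul {w : ℕ → Fin 3} {x y z : Fin 3} (hxy : x ≠ y) (hyz : y ≠ z) (hxz : x ≠ z) :
    om w x * om w y = om w z := by
  unfold om
  by_cases h1 : x = w 0
  · have h2 : y ≠ w 0 := fun h => hxy (h1.trans h.symm)
    have h3 : z ≠ w 0 := fun h => hxz (h1.trans h.symm)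
    simp [h1, h2, h3]
  · by_cases h2 : y = w 0
    · have h3 : z ≠ w 0 := fun h => hyz (h2.trans h.symm)
      simp [h1, h2, h3]
    · have h3 : z = w 0 := by omega
      simp [h1, h2, h3, a_mul_a]

theorem bFun_mul {x y z : Fin 3} (hxy : x ≠ y) (hyz : y ≠ z) (hxz : x ≠ z) (v : List Bool) :
    ∀ w : ℕ → Fin 3, bFun (bFun v w y) w x = bFun v w z := by
  induction v with
  | nil => intro w; rfl
  | cons c v ih =>
    intro w
    cases c
    · simp only [bFun]
      have := congrArg (fun g : P => g v) (om_mul (w := w) hxy hyz hxz)
      unfold om at this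
      by_cases h1 : x = w 0
      · have h2 : y ≠ w 0 := fun h => hxy (h1.trans h.symm)
        have h3 : z ≠ w 0 := fun h => hxz (h1.trans h.symm)
        simp [h1, h2, h3]
      · by_cases h2 : y = w 0
        · have h3 : z ≠ w 0 := fun h => hyz (h2.trans h.symm)
          simp [h1, h2, h3]
        · have h3 : z = w 0 := by omega
          simp [h1, h2, h3, aFun_invol v]
    · simp only [bFun]
      rw [ih]

theorem B_mul {w : ℕ → Fin 3} {x y z : Fin 3} (hxy : x ≠ y) (hyz : y ≠ z) (hxz : x ≠ z) :
    B w x * B w y = B w z := by
  ext1 v
  exact bFun_mul hxy hyz hxz v w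

theorem aBa (w : ℕ → Fin 3) (x : Fin 3) : a * B w x * a = sec (B (sh w 1) x, om w x) := by
  rw [B_eq, a_sec_a]

theorem aB_aB (w : ℕ → Fin 3) (x y : Fin 3) :
    (a * B w x) * (a * B w y) = sec (B (sh w 1) x * om w y, om w x * B (sh w 1) y) := by
  have : (a * B w x) * (a * B w y) = (a * B w x * a) * B w y := by group
  rw [this, aBa, B_eq w y, ← map_mul]
  rfl

/-- prepending a letter -/
def precomp (k : ℕ) (c : Bool) : ((Fin (k + 1) → Bool) → P) →* ((Fin k → Bool) → P) where
  toFun φ u := φ (Fin.cons c u)
  map_one' := rfl
  map_mul' _ _ := rfl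

/-- the element with prescribed sections at the vertices of level `k` -/
def spread : (k : ℕ) → ((Fin k → Bool) → P) →* P
  | 0 => Pi.evalMonoidHom (fun _ : Fin 0 → Bool => P) Fin.elim0
  | k + 1 => sec.comp (MonoidHom.prod ((spread k).comp (precomp k false))
      ((spread k).comp (precomp k true)))

theorem spread_succ (k : ℕ) (φ : (Fin (k + 1) → Bool) → P) :
    spread (k + 1) φ = sec (spread k fun u => φ (Fin.cons false u),
      spread k fun u => φ (Fin.cons true u)) := rfl

theorem spread_injective (k : ℕ) : Function.Injective (spread k) := by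
  induction k with
  | zero =>
    intro φ ψ h
    funext u
    have : u = Fin.elim0 := Subsingleton.elim _ _
    rw [this]
    exact h
  | succ k ih =>
    intro φ ψ h
    rw [spread_succ, spread_succ] at h
    have h1 := sec_injective h
    rw [Prod.mk.injEq] at h1
    have h2 := ih h1.1
    have h3 := ih h1.2
    funext u
    have hu : u = Fin.cons (u 0) (Fin.tail u) := (Fin.cons_self_tail u).symm
    cases hc : u 0
    · rw [hu, hc]
      exact congrFun h2 (Fin.tail u)
    · rw [hu, hc]
      exact congrFun h3 (Fin.tail u)

/-- the product of `a * B w x` for `x` in a list -/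
def S (w : ℕ → Fin 3) (ξ : List (Fin 3)) : P := (ξ.map fun x => a * B w x).prod

/-- interleaving -/
def inter : List (Fin 3) → List (Fin 3) → List (Fin 3)
  | x :: X, y :: Y => x :: y :: inter X Y
  | _, _ => []

theorem inter_cons (x y : Fin 3) (X Y : List (Fin 3)) :
    inter (x :: X) (y :: Y) = x :: y :: inter X Y := rfl

theorem S_inter (w : ℕ → Fin 3) (X Y : List (Fin 3)) (h : X.length = Y.length) :
    S w (inter X Y) = sec ((List.zipWith (fun x y => B (sh w 1) x * om w y) X Y).prod,
      (List.zipWith (fun x y => om w x * B (sh w 1) y) X Y).prod) := by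
  induction X generalizing Y with
  | nil =>
    cases Y with
    | nil =>
      change (1 : P) = sec 1
      rw [map_one]
    | cons y Y => simp at h
  | cons x X ih =>
    cases Y with
    | nil => simp at h
    | cons y Y =>
      rw [inter_cons, S, List.map_cons, List.map_cons, List.prod_cons, List.prod_cons, ← mul_assoc,
        aB_aB]
      have h1 := ih Y (by simpa using h)
      unfold S at h1
      rw [h1, ← map_mul]
      rfl

theorem length_inter (X Y : List (Fin 3)) (h : X.length = Y.length) :
    (inter X Y).length = 2 * X.length := by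
  induction X generalizing Y with
  | nil => cases Y <;> rfl
  | cons x X ih =>
    cases Y with
    | nil => simp at h
    | cons y Y =>
      rw [inter_cons, List.length_cons, List.length_cons, ih Y (by simpa using h), List.length_cons]
      ring

theorem mem_inter (X Y : List (Fin 3)) (x : Fin 3) (h : x ∈ inter X Y) : x ∈ X ∨ x ∈ Y := by
  induction X generalizing Y with
  | nil => cases Y <;> simp [inter] at h
  | cons z X ih =>
    cases Y with
    | nil => simp [inter] at h
    | cons y Y =>
      rw [inter_cons] at h
      rcases List.mem_cons.1 h with h | h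
      · exact Or.inl (h ▸ List.mem_cons_self)
      · rcases List.mem_cons.1 h with h | h
        · exact Or.inr (h ▸ List.mem_cons_self)
        · rcases ih Y h with h | h
          · exact Or.inl (List.mem_cons_of_mem _ h)
          · exact Or.inr (List.mem_cons_of_mem _ h)

/-- parities of the letter counts -/
def par (ξ : List (Fin 3)) (x : Fin 3) : ZMod 2 := (ξ.count x : ZMod 2)

theorem par_inter (X Y : List (Fin 3)) (h : X.length = Y.length) :
    par (inter X Y) = par X + par Y := by
  induction X generalizing Y with
  | nil =>
    cases Y with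
    | nil => funext x; simp [par, inter]
    | cons y Y => simp at h
  | cons x X ih =>
    cases Y with
    | nil => simp at h
    | cons y Y =>
      funext z
      have h1 := congrFun (ih Y (by simpa using h)) z
      rw [inter_cons]
      simp only [par, Pi.add_apply, List.count_cons] at h1 ⊢
      push_cast
      rw [h1]
      ring

theorem par_reverse (X : List (Fin 3)) : par X.reverse = par X := by
  funext x
  simp [par]

theorem S_inv (w : ℕ → Fin 3) (ξ : List (Fin 3)) :
    (S w ξ)⁻¹ = (ξ.reverse.map fun x => B w x * a).prod := by
  rw [S, List.prod_inv_reverse, List.map_map, ← List.map_reverse]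
  congr 2

end Pool.Agent.W380.Fol
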